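import Pool.Agent.Y234.GS.StmA

/-!
# Project GS: closure lemmas for weighted sections
-/

set_option autoImplicit false

namespace Pool.Agent.Y978.GS

open Pool.Agent.Y234.GS

section cob

variable {ι M : Type} [LinearOrder ι] [AddCommGroup M]

theorem pos_erase_lt {S : Finset ι} {i j : ι} (hi : i ∈ S) (hij : i < j) :
    ((S.erase i).filter (fun u => u < j)).card + 1 = (S.filter (fun u => u < j)).card := by
  rw [Finset.filter_erase]
  exact Finset.card_erase_add_one (by simp [hi, hij])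

theorem pos_erase_ge {S : Finset ι} {i j : ι} (hij : ¬ i < j) :
    ((S.erase i).filter (fun u => u < j)).card = (S.filter (fun u => u < j)).card := by
  rw [Finset.filter_erase, Finset.erase_eq_of_notMem (by simp [hij])]

theorem pos_insert_lt {S : Finset ι} {i j : ι} (hi : i ∉ S) (hij : i < j) :
    ((insert i S).filter (fun u => u < j)).card = (S.filter (fun u => u < j)).card + 1 := by
  rw [Finset.filter_insert, if_pos hij]
  exact Finset.card_insert_of_notMem (by simp [hi])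

theorem pos_insert_ge {S : Finset ι} {i j : ι} (hij : ¬ i < j) :
    ((insert i S).filter (fun u => u < j)).card = (S.filter (fun u => u < j)).card := by
  rw [Finset.filter_insert, if_neg hij]

theorem dd_congr {c c' : Finset ι → M} {T : Finset ι}
    (h : ∀ S : Finset ι, S ⊆ T → S.card + 1 = T.card → c S = c' S) : dd c T = dd c' T := by
  unfold dd
  refine Finset.sum_congr rfl (fun i hi => ?_)
  rw [h _ (Finset.erase_subset _ _) (Finset.card_erase_add_one hi)]

theorem dd_add (c c' : Finset ι → M) (T : Finset ι) :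
    dd (fun S => c S + c' S) T = dd c T + dd c' T := by
  unfold dd
  rw [← Finset.sum_add_distrib]
  exact Finset.sum_congr rfl (fun i _ => smul_add _ _ _)

theorem dd_sub (c c' : Finset ι → M) (T : Finset ι) :
    dd (fun S => c S - c' S) T = dd c T - dd c' T := by
  unfold dd
  rw [← Finset.sum_sub_distrib]
  exact Finset.sum_congr rfl (fun i _ => smul_sub _ _ _)

theorem dd_zero (T : Finset ι) : dd (fun _ => (0 : M)) T = 0 := by
  unfold dd
  simp

theorem dd_sum {α : Type} (s : Finset α) (c : α → Finset ι → M) (T : Finset ι) :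
    dd (fun S => ∑ k ∈ s, c k S) T = ∑ k ∈ s, dd (c k) T := by
  unfold dd
  rw [Finset.sum_comm]
  exact Finset.sum_congr rfl (fun i _ => Finset.smul_sum)

theorem dd_map {M' : Type} [AddCommGroup M'] (f : M →+ M') (c : Finset ι → M) (T : Finset ι) :
    dd (fun S => f (c S)) T = f (dd c T) := by
  unfold dd
  rw [map_sum]
  exact Finset.sum_congr rfl (fun i _ => (map_zsmul f _ _).symm)

theorem dd_smul {K : Type} [Ring K] [Module K M] (γ : Finset ι → K) (v : M) (T : Finset ι) :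
    dd (fun S => γ S • v) T = dd γ T • v :=
  dd_map ((smulAddHom K M).flip v) γ T

theorem neg_one_pow_smul_add (a b : ℕ) (v : M) (h : a + 1 = b ∨ b + 1 = a) :
    ((-1 : ℤ) ^ a) • v + ((-1 : ℤ) ^ b) • v = 0 := by
  rcases h with rfl | rfl <;> simp [pow_succ]

theorem dd_dd (c : Finset ι → M) (T : Finset ι) : dd (dd c) T = 0 := by
  unfold dd
  simp only [Finset.smul_sum, smul_smul]
  rw [Finset.sum_sigma']
  refine Finset.sum_involution (fun a _ => ⟨a.2, a.1⟩) ?_ ?_ ?_ ?_
  · rintro ⟨i, j⟩ h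
    simp only [Finset.mem_sigma, Finset.mem_erase] at h
    obtain ⟨hi, hji, hj⟩ := h
    have he : (T.erase i).erase j = (T.erase j).erase i := Finset.erase_right_comm
    simp only
    rw [he, ← pow_add, ← pow_add]
    apply neg_one_pow_smul_add
    rcases lt_or_gt_of_ne hji with hlt | hgt
    · -- j < i
      have h1 := pos_erase_lt (S := T) (i := j) (j := i) hj hlt
      have h2 := pos_erase_ge (S := T) (i := i) (j := j) (not_lt.2 hlt.le)
      omega
    · have h1 := pos_erase_lt (S := T) (i := i) (j := j) hi hgt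
      have h2 := pos_erase_ge (S := T) (i := j) (j := i) (not_lt.2 (le_of_lt hgt))
      omega
  · rintro ⟨i, j⟩ h _
    simp only [Finset.mem_sigma, Finset.mem_erase] at h
    intro heq
    have h1 := congrArg Sigma.fst heq
    exact h.2.1 h1
  · rintro ⟨i, j⟩ h
    simp only [Finset.mem_sigma, Finset.mem_erase] at h ⊢
    exact ⟨h.2.2, fun h' => h.2.1 h'.symm, h.1⟩
  · rintro ⟨i, j⟩ h
    rfl

/-- The homotopy at the vertex `p`. -/
noncomputable def homo (p : ι) (γ : Finset ι → M) (S : Finset ι) : M :=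
  if p ∈ S then 0 else ((-1 : ℤ) ^ (S.filter (fun u => u < p)).card) • γ (insert p S)

theorem dd_homo_mem (p : ι) (γ : Finset ι → M) {T : Finset ι} (hp : p ∈ T) :
    dd (homo p γ) T = γ T := by
  unfold dd
  rw [Finset.sum_eq_single p]
  · unfold homo
    rw [if_neg (Finset.notMem_erase p T), smul_smul, Finset.insert_erase hp, ← pow_add,
      pos_erase_ge (lt_irrefl p), ← two_mul, pow_mul]
    simp
  · intro i hi hip
    unfold homo
    rw [if_pos (Finset.mem_erase.2 ⟨fun h => hip h.symm, hp⟩), smul_zero]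
  · intro h
    exact absurd hp h

theorem dd_homo_notMem (p : ι) (γ : Finset ι → M) {T : Finset ι} (hp : p ∉ T)
    (h : dd γ (insert p T) = 0) : dd (homo p γ) T = γ T := by
  unfold dd at h ⊢
  rw [Finset.sum_insert hp, Finset.erase_insert hp, pos_insert_ge (lt_irrefl p)] at h
  have h1 : γ T = ((-1 : ℤ) ^ (T.filter (fun u => u < p)).card) •
      (-(∑ i ∈ T, ((-1 : ℤ) ^ ((insert p T).filter (fun u => u < i)).card) •
        γ ((insert p T).erase i))) := by
    have h2 := eq_neg_of_add_eq_zero_left h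
    rw [← h2, smul_smul, ← pow_add, ← two_mul, pow_mul]
    simp
  rw [h1, ← Finset.sum_neg_distrib, Finset.smul_sum]
  refine Finset.sum_congr rfl (fun i hi => ?_)
  have hip : i ≠ p := fun h' => hp (h' ▸ hi)
  unfold homo
  rw [if_neg (fun h' => hp (Finset.mem_of_mem_erase h')), smul_smul, smul_neg, smul_smul,
    Finset.erase_insert_of_ne (fun h' => hip h'.symm), ← pow_add, ← pow_add]
  apply eq_neg_of_add_eq_zero_left
  apply neg_one_pow_smul_add
  rcases lt_or_gt_of_ne hip with hlt | hgt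
  · have h3 := pos_erase_lt (S := T) (i := i) (j := p) hi hlt
    have h4 := pos_insert_ge (S := T) (i := p) (j := i) (not_lt.2 hlt.le)
    omega
  · have h3 := pos_erase_ge (S := T) (i := i) (j := p) (not_lt.2 (le_of_lt hgt))
    have h4 := pos_insert_lt (S := T) (i := p) (j := i) hp hgt
    omega

end cob

section wsec

variable {ι : Type} [Fintype ι] {K L : Type} [Field K] [Field L] [Algebra K L]
  {x : ι → L} {w : ι → ℕ}

theorem mon_mem_WV {b : ι → ℕ} {e : ℕ} {s : ℤ} (h1 : deg b = e) (h2 : (wt w b : ℤ) ≤ s) :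
    mon x b ∈ WV K x w e s :=
  Submodule.subset_span ⟨b, h1, h2, rfl⟩

theorem WV_mono {e : ℕ} {s s' : ℤ} (h : s ≤ s') : WV K x w e s ≤ WV K x w e s' :=
  Submodule.span_mono (fun a ha => by
    obtain ⟨b, h1, h2, h3⟩ := ha
    exact ⟨b, h1, h2.trans h, h3⟩)

theorem mon_mul (b b' : ι → ℕ) : mon x b * mon x b' = mon x (b + b') := by
  unfold mon
  rw [← Finset.prod_mul_distrib]
  exact Finset.prod_congr rfl (fun i _ => (pow_add _ _ _).symm)

theorem deg_add (b b' : ι → ℕ) : deg (b + b') = deg b + deg b' := by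
  unfold deg
  rw [← Finset.sum_add_distrib]
  rfl

theorem wt_add (b b' : ι → ℕ) : wt w (b + b') = wt w b + wt w b' := by
  unfold wt
  rw [← Finset.sum_add_distrib]
  exact Finset.sum_congr rfl (fun i _ => by simp [mul_add])

theorem WV_mul {e e' : ℕ} {s s' : ℤ} {a a' : L} (ha : a ∈ WV K x w e s)
    (ha' : a' ∈ WV K x w e' s') : a * a' ∈ WV K x w (e + e') (s + s') := by
  have h := Submodule.mul_mem_mul ha ha'
  unfold WV at h
  rw [Submodule.span_mul_span] at h
  refine Submodule.span_mono ?_ h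
  rintro _ ⟨_, ⟨b, h1, h2, rfl⟩, _, ⟨b', h1', h2', rfl⟩, rfl⟩
  refine ⟨b + b', by rw [deg_add, h1, h1'], ?_, mon_mul _ _⟩
  rw [wt_add]
  push_cast
  linarith

/-- the indicator -/
def ind (S : Finset ι) [DecidableEq ι] : ι → ℕ := fun i => if i ∈ S then 1 else 0

theorem mon_ind [DecidableEq ι] (S : Finset ι) : mon x (ind S) = ∏ i ∈ S, x i := by
  unfold mon ind
  simp [Finset.prod_ite_mem, apply_ite]

theorem deg_ind [DecidableEq ι] (S : Finset ι) : deg (ind S) = S.card := by
  unfold deg ind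
  simp

theorem wt_ind [DecidableEq ι] (S : Finset ι) : wt w (ind S) = ∑ i ∈ S, w i := by
  unfold wt ind
  simp

theorem one_mem_WV : (1 : L) ∈ WV K x w 0 0 := by
  have h : mon x (0 : ι → ℕ) ∈ WV K x w 0 0 := mon_mem_WV (by simp [deg]) (by simp [wt])
  simpa [mon] using h

theorem prod_mem_WV (S : Finset ι) :
    (∏ i ∈ S, x i) ∈ WV K x w S.card (∑ i ∈ S, (w i : ℤ)) := by
  classical
  rw [← mon_ind]
  exact mon_mem_WV (deg_ind S) (by rw [wt_ind]; push_cast; exact le_rfl)

theorem prod_pow_mem_WV (S : Finset ι) (N : ℕ) :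
    (∏ i ∈ S, x i) ^ N ∈ WV K x w (N * S.card) (N * ∑ i ∈ S, (w i : ℤ)) := by
  induction N with
  | zero => simpa using one_mem_WV
  | succ N ih =>
    have h := WV_mul ih (prod_mem_WV (K := K) (x := x) (w := w) S)
    rw [pow_succ]
    have e1 : (N + 1) * S.card = N * S.card + S.card := by ring
    have e2 : ((N + 1 : ℕ) : ℤ) * ∑ i ∈ S, (w i : ℤ) =
      N * ∑ i ∈ S, (w i : ℤ) + ∑ i ∈ S, (w i : ℤ) := by push_cast; ring
    rw [e1, e2]
    exact h

theorem WSec_raise {m s : ℤ} {S : Finset ι} {a : L} {N e : ℕ} (he : (e : ℤ) = m + N * S.card)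
    (ha : (∏ i ∈ S, x i) ^ N * a ∈ WV K x w e (s + N * (∑ i ∈ S, (w i : ℤ)))) (k : ℕ) :
    ((e + k * S.card : ℕ) : ℤ) = m + (N + k : ℕ) * S.card ∧
    (∏ i ∈ S, x i) ^ (N + k) * a ∈
      WV K x w (e + k * S.card) (s + (N + k : ℕ) * (∑ i ∈ S, (w i : ℤ))) := by
  refine ⟨by push_cast; rw [he]; ring, ?_⟩
  have h := WV_mul ha (prod_pow_mem_WV (K := K) (x := x) (w := w) S k)
  have e1 : (∏ i ∈ S, x i) ^ (N + k) * a = (∏ i ∈ S, x i) ^ N * a * (∏ i ∈ S, x i) ^ k := by
    rw [pow_add]; ring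
  have e2 : s + ((N + k : ℕ) : ℤ) * (∑ i ∈ S, (w i : ℤ)) =
    s + N * (∑ i ∈ S, (w i : ℤ)) + k * (∑ i ∈ S, (w i : ℤ)) := by push_cast; ring
  rw [e1, e2]
  exact h

theorem WSec_mono {m s s' : ℤ} {S : Finset ι} (h : s ≤ s') :
    WSec K x w m s S ⊆ WSec K x w m s' S := by
  rintro a ⟨N, e, he, ha⟩
  exact ⟨N, e, he, WV_mono (by linarith) ha⟩

theorem WSec_add {m s : ℤ} {S : Finset ι} {a a' : L} (ha : a ∈ WSec K x w m s S)
    (ha' : a' ∈ WSec K x w m s S) : a + a' ∈ WSec K x w m s S := by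
  obtain ⟨N, e, he, ha⟩ := ha
  obtain ⟨N', e', he', ha'⟩ := ha'
  obtain ⟨h1, h2⟩ := WSec_raise he ha N'
  obtain ⟨h3, h4⟩ := WSec_raise he' ha' N
  refine ⟨N + N', e + N' * S.card, h1, ?_⟩
  have h5 : e' + N * S.card = e + N' * S.card := by
    have : ((e' + N * S.card : ℕ) : ℤ) = ((e + N' * S.card : ℕ) : ℤ) := by
      rw [h1, h3, Nat.add_comm N' N]
    exact_mod_cast this
  rw [h5, Nat.add_comm N' N] at h4
  rw [mul_add]
  exact Submodule.add_mem _ h2 h4

theorem WSec_smul {m s : ℤ} {S : Finset ι} {a : L} (r : K) (ha : a ∈ WSec K x w m s S) :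
    r • a ∈ WSec K x w m s S := by
  obtain ⟨N, e, he, ha⟩ := ha
  refine ⟨N, e, he, ?_⟩
  rw [mul_smul_comm]
  exact Submodule.smul_mem _ _ ha

theorem WSec_zero {m s : ℤ} {S : Finset ι} (hS : S.Nonempty) : (0 : L) ∈ WSec K x w m s S := by
  have hc : 1 ≤ S.card := hS.card_pos
  refine ⟨m.natAbs, (m + m.natAbs * S.card).toNat, ?_, by simp⟩
  rw [Int.toNat_of_nonneg]
  have h1 : (1 : ℤ) ≤ S.card := by exact_mod_cast hc
  have h2 : (0 : ℤ) ≤ m.natAbs := by positivity
  have h3 : -(m.natAbs : ℤ) ≤ m := by omega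
  nlinarith

/-- The weighted sections, with zero added in the case of the empty set. -/
def WM (K : Type) {L : Type} [Field K] [Field L] [Algebra K L] (x : ι → L) (w : ι → ℕ)
    (m s : ℤ) (S : Finset ι) : Submodule K L where
  carrier := {a | a = 0 ∨ a ∈ WSec K x w m s S}
  zero_mem' := Or.inl rfl
  add_mem' := by
    rintro a b (rfl | ha) (rfl | hb)
    · exact Or.inl (add_zero _)
    · rw [zero_add]; exact Or.inr hb
    · rw [add_zero]; exact Or.inr ha
    · exact Or.inr (WSec_add ha hb)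
  smul_mem' := by
    rintro r a (rfl | ha)
    · exact Or.inl (smul_zero _)
    · exact Or.inr (WSec_smul r ha)

theorem mem_WM_of {m s : ℤ} {S : Finset ι} {a : L} (ha : a ∈ WSec K x w m s S) :
    a ∈ WM K x w m s S := Or.inr ha

theorem mem_WM {m s : ℤ} {S : Finset ι} (hS : S.Nonempty) {a : L} :
    a ∈ WM K x w m s S ↔ a ∈ WSec K x w m s S :=
  ⟨fun h => h.elim (fun h => h ▸ WSec_zero hS) id, Or.inr⟩

theorem WM_mono {m s s' : ℤ} {S : Finset ι} (h : s ≤ s') : WM K x w m s S ≤ WM K x w m s' S := by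
  rintro a (rfl | ha)
  · exact Or.inl rfl
  · exact Or.inr (WSec_mono h ha)

theorem WSec_restrict [DecidableEq ι] {m s : ℤ} {S T : Finset ι} (h : S ⊆ T) :
    WSec K x w m s S ⊆ WSec K x w m s T := by
  rintro a ⟨N, e, he, ha⟩
  have h1 := WV_mul ha (prod_pow_mem_WV (K := K) (x := x) (w := w) (T \ S) N)
  refine ⟨N, e + N * (T \ S).card, ?_, ?_⟩
  · have h2 : (T \ S).card + S.card = T.card := Finset.card_sdiff_add_card_eq_card h
    rw [← h2]
    push_cast
    rw [he]
    ring
  · have e1 : (∏ i ∈ T, x i) ^ N * a = (∏ i ∈ S, x i) ^ N * a * (∏ i ∈ T \ S, x i) ^ N := by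
      rw [← Finset.prod_sdiff h, mul_pow]; ring
    have e2 : s + (N : ℤ) * (∑ i ∈ T, (w i : ℤ)) =
      s + N * (∑ i ∈ S, (w i : ℤ)) + N * (∑ i ∈ T \ S, (w i : ℤ)) := by
      rw [← Finset.sum_sdiff h]; ring
    rw [e1, e2]
    exact h1

theorem WM_restrict [DecidableEq ι] {m s : ℤ} {S T : Finset ι} (h : S ⊆ T) :
    WM K x w m s S ≤ WM K x w m s T := by
  rintro a (rfl | ha)
  · exact Or.inl rfl
  · exact Or.inr (WSec_restrict h ha)

theorem mon_mem_pow (b : ι → ℕ) : mon x b ∈ (VV K x) ^ deg b := by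
  unfold mon deg
  induction (Finset.univ : Finset ι) using Finset.cons_induction with
  | empty => simp
  | cons i s hi ih =>
    rw [Finset.prod_cons, Finset.sum_cons, pow_add]
    exact Submodule.mul_mem_mul
      (Submodule.pow_mem_pow _ (Submodule.subset_span (Set.mem_range_self i)) _) ih

theorem WV_le_pow (e : ℕ) (s : ℤ) : WV K x w e s ≤ (VV K x) ^ e := by
  refine Submodule.span_le.2 ?_
  rintro _ ⟨b, rfl, _, rfl⟩
  exact mon_mem_pow b

theorem WSec_sub_Sec {m s : ℤ} {S : Finset ι} : WSec K x w m s S ⊆ Sec (VV K x) x m S := by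
  rintro a ⟨N, e, he, ha⟩
  exact ⟨N, e, he, WV_le_pow _ _ ha⟩

theorem pow_le_WV (e : ℕ) : (VV K x) ^ e ≤ WV K x w e (e * ∑ i, (w i : ℤ)) := by
  classical
  induction e with
  | zero =>
    rw [pow_zero, Submodule.one_le]
    simpa using one_mem_WV
  | succ e ih =>
    rw [pow_succ, Submodule.mul_le]
    intro a ha b hb
    have hb' : b ∈ WV K x w 1 (∑ i, (w i : ℤ)) := by
      refine (Submodule.span_le (p := WV K x w 1 (∑ i, (w i : ℤ)))).2 ?_ hb
      rintro _ ⟨i, rfl⟩
      have h1 : x i = mon x (ind {i}) := by rw [mon_ind]; simp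
      rw [SetLike.mem_coe, h1]
      refine mon_mem_WV (by rw [deg_ind]; simp) ?_
      rw [wt_ind, Finset.sum_singleton]
      exact Finset.single_le_sum (f := fun i => (w i : ℤ)) (fun i _ => by positivity)
        (Finset.mem_univ i)
    have h := WV_mul (ih ha) hb'
    have e2 : ((e + 1 : ℕ) : ℤ) * ∑ i, (w i : ℤ) = e * ∑ i, (w i : ℤ) + ∑ i, (w i : ℤ) := by
      push_cast; ring
    rw [e2]
    exact h

theorem Sec_sub_WSec {m : ℤ} {S : Finset ι} {a : L} (ha : a ∈ Sec (VV K x) x m S) :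
    ∃ s : ℤ, a ∈ WSec K x w m s S := by
  obtain ⟨N, e, he, ha⟩ := ha
  refine ⟨(e * ∑ i, (w i : ℤ)) - N * (∑ i ∈ S, (w i : ℤ)), N, e, he, ?_⟩
  rw [sub_add_cancel]
  exact pow_le_WV e ha

/-- A cochain of sections has bounded weight. -/
theorem exists_WCoch [LinearOrder ι] {m : ℤ} {j : ℕ} {c : Finset ι → L}
    (hc : Coch (VV K x) x m j c) : ∃ s0 : ℤ, ∀ s ≥ s0, WCoch K x w m s j c := by
  classical
  have h : ∀ S : Finset ι, ∃ s : ℤ, S.card = j → c S ∈ WSec K x w m s S := by
    intro S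
    by_cases hS : S.card = j
    · obtain ⟨s, hs⟩ := Sec_sub_WSec (w := w) (hc S hS)
      exact ⟨s, fun _ => hs⟩
    · exact ⟨0, fun h => absurd h hS⟩
  choose f hf using h
  refine ⟨∑ S, |f S|, fun s hs S hS => WSec_mono ?_ (hf S hS)⟩
  calc f S ≤ |f S| := le_abs_self _
    _ ≤ ∑ S, |f S| := Finset.single_le_sum (f := fun S => |f S|) (fun _ _ => abs_nonneg _)
        (Finset.mem_univ S)
    _ ≤ s := hs

theorem dd_mem_WM [LinearOrder ι] {m s : ℤ} {j : ℕ} {b : Finset ι → L}
    (hb : ∀ S : Finset ι, S.card = j → b S ∈ WM K x w m s S) {T : Finset ι}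
    (hT : T.card = j + 1) : dd b T ∈ WM K x w m s T := by
  unfold dd
  refine Submodule.sum_mem _ (fun i hi => ?_)
  refine zsmul_mem (WM_restrict (Finset.erase_subset i T) (hb _ ?_)) _
  rw [Finset.card_erase_of_mem hi, hT]
  simp

end wsec

end Pool.Agent.Y978.GS
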