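import Pool.Agent.Y234.GS.StmB
import Pool.Agent.Y978.GS.Base

/-!
# Project GS: vanishing above the dimension, killing below the dimension
-/

set_option autoImplicit false
set_option linter.unusedSectionVars false

namespace Pool.Agent.Y978.GS

open Pool.Agent.Y234.GS MvPolynomial

section sec

variable {ι κ O L : Type} [LinearOrder ι] [LinearOrder κ] [CommRing O] [Field L] [Algebra O L]

theorem Sec_zero {W : Submodule O L} {f : ι → L} {m : ℤ} {S : Finset ι} (hS : S.Nonempty) :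
    (0 : L) ∈ Sec W f m S := by
  have hc : 1 ≤ S.card := hS.card_pos
  refine ⟨m.natAbs, (m + m.natAbs * S.card).toNat, ?_, by simp⟩
  rw [Int.toNat_of_nonneg]
  have h1 : (1 : ℤ) ≤ S.card := by exact_mod_cast hc
  have h2 : (0 : ℤ) ≤ m.natAbs := by positivity
  have h3 : -(m.natAbs : ℤ) ≤ m := by omega
  nlinarith

theorem prod_mem_pow {W : Submodule O L} {f : ι → L} (hf : ∀ i, f i ∈ W) (S : Finset ι) :
    (∏ i ∈ S, f i) ∈ W ^ S.card := by
  induction S using Finset.cons_induction with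
  | empty => simpa using ⟨1, map_one _⟩
  | cons i s hi ih =>
    rw [Finset.prod_cons, Finset.card_cons, pow_succ']
    exact Submodule.mul_mem_mul (hf i) ih

theorem prod_pow_mem_pow {W : Submodule O L} {f : ι → L} (hf : ∀ i, f i ∈ W) (S : Finset ι)
    (N : ℕ) : (∏ i ∈ S, f i) ^ N ∈ W ^ (N * S.card) := by
  rw [mul_comm N, pow_mul]
  exact Submodule.pow_mem_pow _ (prod_mem_pow hf S) N

theorem Sec_raise {W : Submodule O L} {f : ι → L} (hf : ∀ i, f i ∈ W) {m : ℤ} {S : Finset ι}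
    {a : L} {N e : ℕ} (he : (e : ℤ) = m + N * S.card) (ha : (∏ i ∈ S, f i) ^ N * a ∈ W ^ e)
    (k : ℕ) : ((e + k * S.card : ℕ) : ℤ) = m + (N + k : ℕ) * S.card ∧
    (∏ i ∈ S, f i) ^ (N + k) * a ∈ W ^ (e + k * S.card) := by
  refine ⟨by push_cast; rw [he]; ring, ?_⟩
  have h := Submodule.mul_mem_mul ha (prod_pow_mem_pow hf S k)
  rw [← pow_add] at h
  have e1 : (∏ i ∈ S, f i) ^ (N + k) * a = (∏ i ∈ S, f i) ^ N * a * (∏ i ∈ S, f i) ^ k := by
    rw [pow_add]; ring
  rw [e1]
  exact h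

theorem Sec_add {W : Submodule O L} {f : ι → L} (hf : ∀ i, f i ∈ W) {m : ℤ} {S : Finset ι}
    {a a' : L} (ha : a ∈ Sec W f m S) (ha' : a' ∈ Sec W f m S) : a + a' ∈ Sec W f m S := by
  obtain ⟨N, e, he, ha⟩ := ha
  obtain ⟨N', e', he', ha'⟩ := ha'
  obtain ⟨h1, h2⟩ := Sec_raise hf he ha N'
  obtain ⟨h3, h4⟩ := Sec_raise hf he' ha' N
  refine ⟨N + N', e + N' * S.card, h1, ?_⟩
  have h5 : e' + N * S.card = e + N' * S.card := by
    have : ((e' + N * S.card : ℕ) : ℤ) = ((e + N' * S.card : ℕ) : ℤ) := by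
      rw [h1, h3, Nat.add_comm N' N]
    exact_mod_cast this
  rw [h5, Nat.add_comm N' N] at h4
  rw [mul_add]
  exact Submodule.add_mem _ h2 h4

theorem Sec_smul {W : Submodule O L} {f : ι → L} {m : ℤ} {S : Finset ι}
    {a : L} (r : O) (ha : a ∈ Sec W f m S) : r • a ∈ Sec W f m S := by
  obtain ⟨N, e, he, ha⟩ := ha
  refine ⟨N, e, he, ?_⟩
  rw [mul_smul_comm]
  exact Submodule.smul_mem _ _ ha

theorem Sec_sum {W : Submodule O L} {f : ι → L} (hf : ∀ i, f i ∈ W) {m : ℤ} {S : Finset ι}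
    (hS : S.Nonempty) {α : Type} (s : Finset α) {a : α → L} (ha : ∀ k ∈ s, a k ∈ Sec W f m S) :
    ∑ k ∈ s, a k ∈ Sec W f m S := by
  classical
  induction s using Finset.induction_on with
  | empty => simpa using Sec_zero hS
  | insert k s hk ih =>
    rw [Finset.sum_insert hk]
    exact Sec_add hf (ha k (Finset.mem_insert_self k s))
      (ih (fun l hl => ha l (Finset.mem_insert_of_mem hl)))

theorem Sec_mul {W : Submodule O L} {f : ι → L} {m : ℤ} {S : Finset ι} {n : ℕ} {z a : L}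
    (hz : z ∈ W ^ n) (ha : a ∈ Sec W f m S) : z * a ∈ Sec W f (m + n) S := by
  obtain ⟨N, e, he, ha⟩ := ha
  refine ⟨N, e + n, by push_cast; rw [he]; ring, ?_⟩
  have h := Submodule.mul_mem_mul ha hz
  rw [← pow_add] at h
  have e1 : (∏ i ∈ S, f i) ^ N * (z * a) = (∏ i ∈ S, f i) ^ N * a * z := by ring
  rw [e1]
  exact h

theorem Sec_le {W W' : Submodule O L} (hW : W ≤ W') {f : ι → L} {m : ℤ} {S : Finset ι} :
    Sec W f m S ⊆ Sec W' f m S := by
  rintro a ⟨N, e, he, ha⟩
  exact ⟨N, e, he, pow_le_pow_left' hW e ha⟩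

theorem Sec_emb {W : Submodule O L} {f : κ → L} {m : ℤ} (e : ι ↪o κ) (S : Finset ι) :
    Sec W f m (S.map e.toEmbedding) = Sec W (fun i => f (e i)) m S := by
  unfold Sec
  rw [Finset.card_map, Finset.prod_map]
  rfl

theorem dd_emb {M : Type} [AddCommGroup M] (e : ι ↪o κ) (b : Finset κ → M) (S : Finset ι) :
    dd b (S.map e.toEmbedding) = dd (fun S => b (S.map e.toEmbedding)) S := by
  unfold dd
  rw [Finset.sum_map]
  refine Finset.sum_congr rfl (fun i _ => ?_)
  have h1 : ((S.map e.toEmbedding).filter (fun u => u < e.toEmbedding i)).card =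
      (S.filter (fun u => u < i)).card := by
    rw [Finset.filter_map, Finset.card_map]
    congr 1
    ext u
    simp
  rw [h1]
  simp only
  rw [Finset.map_erase]

theorem Coch_emb {W : Submodule O L} {f : κ → L} {m : ℤ} {j : ℕ} (e : ι ↪o κ)
    {b : Finset κ → L} (hb : Coch W f m j b) :
    Coch W (fun i => f (e i)) m j (fun S => b (S.map e.toEmbedding)) := by
  intro S hS
  rw [← Sec_emb]
  exact hb _ (by rw [Finset.card_map, hS])

theorem Cocyc_emb {W : Submodule O L} {f : κ → L} {m : ℤ} {j : ℕ} (e : ι ↪o κ)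
    {b : Finset κ → L} (hb : Cocyc W f m j b) :
    Cocyc W (fun i => f (e i)) m j (fun S => b (S.map e.toEmbedding)) := by
  refine ⟨Coch_emb e hb.1, fun S hS => ?_⟩
  rw [← dd_emb]
  exact hb.2 _ (by rw [Finset.card_map, hS])

theorem Cobd_emb {W : Submodule O L} {f : κ → L} {m : ℤ} {j : ℕ} (e : ι ↪o κ)
    {c : Finset κ → L} (hc : Cobd W f m j c) :
    Cobd W (fun i => f (e i)) m j (fun S => c (S.map e.toEmbedding)) := by
  obtain ⟨b, hb1, hb2⟩ := hc
  refine ⟨_, Coch_emb e hb1, fun S hS => ?_⟩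
  rw [← dd_emb]
  exact hb2 _ (by rw [Finset.card_map, hS])

theorem Cobd_congr {W : Submodule O L} {f : ι → L} {m : ℤ} {j : ℕ} {c c' : Finset ι → L}
    (hc : Cobd W f m j c) (h : ∀ S : Finset ι, S.card = j → c' S = c S) : Cobd W f m j c' := by
  obtain ⟨b, hb1, hb2⟩ := hc
  exact ⟨b, hb1, fun S hS => by rw [h S hS, hb2 S hS]⟩

theorem Cocyc_mul {W : Submodule O L} {f : ι → L} {m : ℤ} {j n : ℕ} {z : L} {c : Finset ι → L}
    (hz : z ∈ W ^ n) (hc : Cocyc W f m j c) : Cocyc W f (m + n) j (fun S => z * c S) := by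
  refine ⟨fun S hS => Sec_mul hz (hc.1 S hS), fun S hS => ?_⟩
  have h := dd_map (AddMonoidHom.mulLeft z) c S
  rw [hc.2 S hS, map_zero] at h
  exact h

theorem Cover_self {ι K L : Type} [Fintype ι] [Field K] [Field L] [Algebra K L] (x : ι → L) :
    Cover (VV K x) x := by
  refine ⟨0, fun a ha => ?_⟩
  rw [zero_add, pow_one] at ha
  obtain ⟨c, rfl⟩ := (Submodule.mem_span_range_iff_exists_fun K).1 ha
  refine ⟨fun i => algebraMap K L (c i), fun i => ?_, ?_⟩
  · rw [pow_zero]
    exact Submodule.algebraMap_mem _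
  · exact Finset.sum_congr rfl (fun i _ => by rw [Algebra.smul_def, mul_comm])

theorem aeval_mem_pow {ι K L : Type} [Fintype ι] [Field K] [CommRing L] [Algebra K L] {x : ι → L}
    {G : MvPolynomial ι K} {d : ℕ} (hG : G.IsHomogeneous d) : aeval x G ∈ (VV K x) ^ d := by
  rw [aeval_def, eval₂_eq']
  refine Submodule.sum_mem _ (fun b hb => ?_)
  rw [← Algebra.smul_def]
  refine Submodule.smul_mem _ _ ?_
  have h2 : ∑ i, b i = d := by
    rw [hG.degree_eq_sum_deg_support hb]
    exact (Finset.sum_subset (Finset.subset_univ _) (fun i _ hi => by simpa using hi)).symm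
  rw [← h2]
  clear h2 hb
  induction (Finset.univ : Finset ι) using Finset.cons_induction with
  | empty => simpa using ⟨1, map_one _⟩
  | cons i s hi ih =>
    rw [Finset.prod_cons, Finset.sum_cons, pow_add]
    exact Submodule.mul_mem_mul
      (Submodule.pow_mem_pow _ (Submodule.subset_span (Set.mem_range_self i)) _) ih

end sec

section union

variable {ι : Type} [LinearOrder ι]

/-- the left embedding -/
def eL (ι : Type) [LinearOrder ι] (D : ℕ) : ι ↪o ι ⊕ₗ Fin D :=
  OrderEmbedding.ofStrictMono (fun i => toLex (Sum.inl i)) Sum.Lex.inl_strictMono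

/-- the right embedding -/
def eR (ι : Type) [LinearOrder ι] (D : ℕ) : Fin D ↪o ι ⊕ₗ Fin D :=
  OrderEmbedding.ofStrictMono (fun i => toLex (Sum.inr i)) Sum.Lex.inr_strictMono

end union

theorem high : S_REF → S_HIGH := by
  intro hR K L ι _ _ _ _ _ x D θ hx hθm hθ hcov m j hj hDj c hc
  set F : ι ⊕ₗ Fin D → L := fun k => Sum.elim x θ (ofLex k) with hF
  have hFW : ∀ k, F k ∈ VV K x := by
    intro k
    rcases h : ofLex k with i | i
    · simp only [hF, h, Sum.elim_inl]
      exact Submodule.subset_span (Set.mem_range_self i)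
    · simp only [hF, h, Sum.elim_inr]
      exact hθm i
  have hF0 : ∀ k, F k ≠ 0 := by
    intro k
    rcases h : ofLex k with i | i
    · simp only [hF, h, Sum.elim_inl]
      exact hx i
    · simp only [hF, h, Sum.elim_inr]
      exact hθ i
  obtain ⟨h, hh1, hh2⟩ := (hR K L ι (ι ⊕ₗ Fin D) (eL ι D) (VV K x) F m j hFW hF0
    (Cover_self x) hj).1 c hc
  have h1 : Cobd (VV K x) F m j h := by
    refine (hR K L (Fin D) (ι ⊕ₗ Fin D) (eR ι D) (VV K x) F m j hFW hF0 hcov hj).2 h hh1 ?_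
    refine ⟨fun _ => 0, fun S hS => Sec_zero (Finset.card_pos.1 (by omega)), fun S hS => ?_⟩
    have := Finset.card_le_univ S
    rw [Fintype.card_fin] at this
    omega
  exact Cobd_congr (Cobd_emb (eL ι D) h1) (fun S hS => (hh2 S hS).symm)

theorem ek : S_REF → S_POL → S_EK := by
  intro hR hP K L ι _ _ _ _ _ x p D y hp hchar hx hTF
  obtain ⟨θ, τ, n, R, r, r', a, b, g, hθm, hθi, hcov, hτ1, hτ2, hτ3, hab, hg, hrep⟩ := hTF
  refine ⟨R, g, hg, fun m j c hj hjD hc => ?_⟩
  have hθ : ∀ k, θ k ≠ 0 := fun k => hθi.ne_zero k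
  have hgR : g ∈ (VV K x) ^ R := by
    obtain ⟨G, hG1, hG2, _⟩ := hg
    rw [← hG2]
    exact aeval_mem_pow hG1
  set F : ι ⊕ₗ Fin D → L := fun k => Sum.elim x θ (ofLex k) with hF
  have hFW : ∀ k, F k ∈ VV K x := by
    intro k
    rcases h : ofLex k with i | i
    · simp only [hF, h, Sum.elim_inl]
      exact Submodule.subset_span (Set.mem_range_self i)
    · simp only [hF, h, Sum.elim_inr]
      exact hθm i
  have hF0 : ∀ k, F k ≠ 0 := by
    intro k
    rcases h : ofLex k with i | i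
    · simp only [hF, h, Sum.elim_inl]
      exact hx i
    · simp only [hF, h, Sum.elim_inr]
      exact hθ i
  have hle : VV K θ ≤ VV K x := by
    refine Submodule.span_le.2 ?_
    rintro _ ⟨k, rfl⟩
    exact hθm k
  obtain ⟨h, hh1, hh2⟩ := (hR K L ι (ι ⊕ₗ Fin D) (eL ι D) (VV K x) F m j hFW hF0
    (Cover_self x) hj).1 c hc
  have hc' : Cocyc (VV K x) θ m j (fun S => h (S.map (eR ι D).toEmbedding)) :=
    Cocyc_emb (eR ι D) hh1
  set c' : Finset (Fin D) → L := fun S => h (S.map (eR ι D).toEmbedding) with hc'def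
  have hτprod : ∀ (S : Finset (Fin D)) (z : L), τ ((∏ k ∈ S, θ k) * z) = (∏ k ∈ S, θ k) * τ z := by
    intro S
    induction S using Finset.cons_induction with
    | empty => intro z; simp
    | cons k s hk ih =>
      intro z
      rw [Finset.prod_cons, mul_assoc, hτ2, ih, mul_assoc]
  have hτpow : ∀ (S : Finset (Fin D)) (N : ℕ) (z : L),
      τ ((∏ k ∈ S, θ k) ^ N * z) = (∏ k ∈ S, θ k) ^ N * τ z := by
    intro S N
    induction N with
    | zero => intro z; simp
    | succ N ih =>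
      intro z
      rw [pow_succ', mul_assoc, hτprod, ih, mul_assoc]
  have hcob : ∀ i : Fin n, ∃ β : Finset (Fin D) → L,
      Coch (VV K θ) θ (m + r' i) (j - 1) β ∧
      ∀ S : Finset (Fin D), S.card = j → τ (b i * c' S) = dd β S := by
    intro i
    refine hP K L D θ hθi (m + r' i) j hj hjD (fun S => τ (b i * c' S)) ⟨fun S hS => ?_, ?_⟩
    · obtain ⟨N, e, he, hmem⟩ := hc'.1 S hS
      refine ⟨N, e + r' i, by push_cast; rw [he]; ring, ?_⟩
      rw [← hτpow]
      apply hτ1
      have h1 := Submodule.mul_mem_mul hmem (hab i).2.2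
      rw [← pow_add] at h1
      have e1 : (∏ k ∈ S, θ k) ^ N * (b i * c' S) = (∏ k ∈ S, θ k) ^ N * c' S * b i := by ring
      rw [e1]
      exact h1
    · intro S hS
      have h1 := dd_map ((τ : L →ₗ[K] L).toAddMonoidHom.comp (AddMonoidHom.mulLeft (b i))) c' S
      rw [hc'.2 S hS, map_zero] at h1
      exact h1
  choose β hβ1 hβ2 using hcob
  have hfin : Cobd (VV K x) θ (m + R) j (fun S => g * c' S) := by
    refine ⟨fun S => ∑ i, a i * β i S, fun S hS => ?_, fun S hS => ?_⟩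
    · refine Sec_sum hθm (Finset.card_pos.1 (by omega)) _ (fun i _ => ?_)
      have h1 := Sec_mul (hab i).2.1 (Sec_le hle (hβ1 i S hS))
      have e1 : m + (R : ℤ) = m + (r' i : ℤ) + (r i : ℤ) := by
        rw [← (hab i).1]; push_cast; ring
      rw [e1]
      exact h1
    · have h1 := hrep 0 (c' S)
      simp only [pow_zero, pow_one] at h1
      simp only
      rw [h1, dd_sum]
      refine Finset.sum_congr rfl (fun i _ => ?_)
      rw [hβ2 i S hS]
      exact (dd_map (AddMonoidHom.mulLeft (a i)) (β i) S).symm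
  have h1 : Cobd (VV K x) F (m + R) j (fun S => g * h S) :=
    (hR K L (Fin D) (ι ⊕ₗ Fin D) (eR ι D) (VV K x) F (m + R) j hFW hF0 hcov hj).2 _
      (Cocyc_mul hgR hh1) hfin
  exact Cobd_congr (Cobd_emb (eL ι D) h1) (fun S hS => by rw [hh2 S hS])

end Pool.Agent.Y978.GS
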