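import Pool.Agent.Y234.GS.StmB
import Pool.Agent.Y978.GS.High

/-!
# Project GS: Noether normalization by linear forms
-/

set_option autoImplicit false
set_option linter.unusedSectionVars false

namespace Pool.Agent.Y978.GS

open Pool.Agent.Y234.GS MvPolynomial

section nn

variable {k B : Type} [Field k] [CommRing B] [Algebra k B]

/-- homogeneous relations -/
def HR (k : Type) {B ι : Type} [Field k] [CommRing B] [Algebra k B] (z : ι → B) : Prop :=
  ∀ G : MvPolynomial ι k, aeval z G = 0 → ∀ d : ℕ, aeval z (homogeneousComponent d G) = 0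

theorem mem_VV_mul {D : ℕ} {θ : Fin D → B} {M : Submodule k B} {a : B}
    (ha : a ∈ VV k θ * M) : ∃ r : Fin D → B, (∀ l, r l ∈ M) ∧ a = ∑ l, θ l * r l := by
  induction ha using Submodule.mul_induction_on' with
  | mem_mul_mem m hm n hn =>
    obtain ⟨c, rfl⟩ := (Submodule.mem_span_range_iff_exists_fun k).1 hm
    refine ⟨fun l => c l • n, fun l => Submodule.smul_mem _ _ hn, ?_⟩
    rw [Finset.sum_mul]
    exact Finset.sum_congr rfl (fun l _ => by rw [smul_mul_assoc, mul_smul_comm])
  | add x _ y _ hx hy =>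
    obtain ⟨r, hr, rfl⟩ := hx
    obtain ⟨r', hr', rfl⟩ := hy
    refine ⟨fun l => r l + r' l, fun l => Submodule.add_mem _ (hr l) (hr' l), ?_⟩
    rw [← Finset.sum_add_distrib]
    exact Finset.sum_congr rfl (fun l _ => by ring)

theorem coverR_iff {D : ℕ} {W : Submodule k B} {θ : Fin D → B} :
    CoverR W θ ↔ ∃ N : ℕ, W ^ (N + 1) ≤ VV k θ * W ^ N := by
  constructor
  · rintro ⟨N, hN⟩
    refine ⟨N, fun a ha => ?_⟩
    obtain ⟨r, hr, rfl⟩ := hN a ha
    exact Submodule.sum_mem _ (fun l _ =>
      Submodule.mul_mem_mul (Submodule.subset_span (Set.mem_range_self l)) (hr l))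
  · rintro ⟨N, hN⟩
    exact ⟨N, fun a ha => mem_VV_mul (hN ha)⟩

/-- The ideal generated by `W'` in degree `e`. -/
def JJ (W' W : Submodule k B) : ℕ → Submodule k B
  | 0 => ⊥
  | e + 1 => W' * W ^ e

theorem JJ_mul_pow (W' W : Submodule k B) (e e' : ℕ) :
    JJ W' W e * W ^ e' ≤ JJ W' W (e + e') := by
  cases e with
  | zero => simp [JJ]
  | succ e =>
    have : e + 1 + e' = (e + e') + 1 := by ring
    rw [this]
    show W' * W ^ e * W ^ e' ≤ W' * W ^ (e + e')
    rw [mul_assoc, ← pow_add]

theorem mem_JJ_mul {W' W : Submodule k B} {e e' : ℕ} {a b : B} (ha : a ∈ JJ W' W e)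
    (hb : b ∈ W ^ e') : a * b ∈ JJ W' W (e + e') :=
  JJ_mul_pow W' W e e' (Submodule.mul_mem_mul ha hb)

/-- Congruence with a multiple of a power of `t`. -/
def PP (W' W : Submodule k B) (t : B) (e : ℕ) (b : B) (r : k) : Prop :=
  b ∈ W ^ e ∧ b - r • t ^ e ∈ JJ W' W e

theorem PP_mul {W' W : Submodule k B} {t : B} (ht : t ∈ W) {e e' : ℕ} {b b' : B} {r r' : k}
    (h : PP W' W t e b r) (h' : PP W' W t e' b' r') :
    PP W' W t (e + e') (b * b') (r * r') := by
  refine ⟨by rw [pow_add]; exact Submodule.mul_mem_mul h.1 h'.1, ?_⟩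
  have e1 : b * b' - (r * r') • t ^ (e + e') =
      (b - r • t ^ e) * b' + (b' - r' • t ^ e') * (r • t ^ e) := by
    simp only [Algebra.smul_def, map_mul, pow_add]
    ring
  rw [e1]
  refine Submodule.add_mem _ (mem_JJ_mul h.2 h'.1) ?_
  rw [add_comm e e']
  exact mem_JJ_mul h'.2 (Submodule.smul_mem _ _ (Submodule.pow_mem_pow _ ht e))

theorem PP_one (W' W : Submodule k B) (t : B) : PP W' W t 0 1 1 := by
  refine ⟨by rw [pow_zero]; exact Submodule.one_le.1 le_rfl, ?_⟩
  simp [JJ]

theorem PP_pow {W' W : Submodule k B} {t : B} (ht : t ∈ W) {b : B} {r : k}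
    (h : PP W' W t 1 b r) (n : ℕ) : PP W' W t n (b ^ n) (r ^ n) := by
  induction n with
  | zero => simpa using PP_one W' W t
  | succ n ih =>
    rw [pow_succ, pow_succ]
    exact PP_mul ht ih h

theorem PP_prod {W' W : Submodule k B} {t : B} (ht : t ∈ W) {ι : Type} (s : Finset ι)
    {b : ι → B} {r : ι → k} (h : ∀ i, PP W' W t 1 (b i) (r i)) (n : ι → ℕ) :
    PP W' W t (∑ i ∈ s, n i) (∏ i ∈ s, b i ^ n i) (∏ i ∈ s, r i ^ n i) := by
  classical
  induction s using Finset.induction_on with
  | empty => simpa using PP_one W' W t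
  | insert i s hi ih =>
    rw [Finset.sum_insert hi, Finset.prod_insert hi, Finset.prod_insert hi]
    exact PP_mul ht (PP_pow ht (h i) _) ih

theorem PP_poly {W' W : Submodule k B} {t : B} (ht : t ∈ W) {ι : Type} [Fintype ι]
    {b : ι → B} {r : ι → k} (h : ∀ i, PP W' W t 1 (b i) (r i)) {G : MvPolynomial ι k} {e : ℕ}
    (hG : G.IsHomogeneous e) : aeval b G - (eval r G) • t ^ e ∈ JJ W' W e := by
  have e1 : aeval b G - (eval r G) • t ^ e =
      ∑ m ∈ G.support, coeff m G • ((∏ i, b i ^ m i) - (∏ i, r i ^ m i) • t ^ e) := by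
    rw [aeval_def, eval₂_eq', eval_eq', Finset.sum_smul, ← Finset.sum_sub_distrib]
    refine Finset.sum_congr rfl (fun m _ => ?_)
    simp only [Algebra.smul_def, map_mul]
    ring
  rw [e1]
  refine Submodule.sum_mem _ (fun m hm => Submodule.smul_mem _ _ ?_)
  have h2 : ∑ i, m i = e := by
    rw [hG.degree_eq_sum_deg_support hm]
    exact (Finset.sum_subset (Finset.subset_univ _) (fun i _ hi => by simpa using hi)).symm
  have h3 := (PP_prod ht Finset.univ h (fun i => m i)).2
  rw [h2] at h3
  exact h3

theorem sup_pow_le (W' U : Submodule k B) (m : ℕ) :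
    (W' ⊔ U) ^ m ≤ JJ W' (W' ⊔ U) m ⊔ U ^ m := by
  induction m with
  | zero => simp
  | succ m ih =>
    have h1 : (W' ⊔ U) ^ (m + 1) = W' * (W' ⊔ U) ^ m ⊔ (W' ⊔ U) ^ m * U := by
      rw [pow_succ, Submodule.mul_sup, mul_comm _ W']
    rw [h1]
    refine sup_le le_sup_left ?_
    calc (W' ⊔ U) ^ m * U ≤ (JJ W' (W' ⊔ U) m ⊔ U ^ m) * U := by gcongr
      _ = JJ W' (W' ⊔ U) m * U ⊔ U ^ (m + 1) := by rw [Submodule.sup_mul, pow_succ]
      _ ≤ JJ W' (W' ⊔ U) (m + 1) ⊔ U ^ (m + 1) := by
          refine sup_le_sup_right ?_ _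
          refine le_trans ?_ (JJ_mul_pow W' (W' ⊔ U) m 1)
          rw [pow_one]
          gcongr
          exact le_sup_right

theorem HR_sub {n n' : ℕ} {u : Fin n → B} (hu : HR k u) (ℓ : Fin n' → MvPolynomial (Fin n) k)
    (hℓ : ∀ i, (ℓ i).IsHomogeneous 1) : HR k (fun i => aeval u (ℓ i)) := by
  intro H hH d
  have hcomp : ∀ P : MvPolynomial (Fin n') k,
      aeval (fun i => aeval u (ℓ i)) P = aeval u (aeval ℓ P) := by
    intro P
    rw [← AlgHom.comp_apply, comp_aeval]
  rw [hcomp] at hH ⊢
  have h1 := hu _ hH d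
  have h2 : homogeneousComponent d (aeval ℓ H) = aeval ℓ (homogeneousComponent d H) := by
    conv_lhs => rw [← sum_homogeneousComponent H]
    rw [map_sum, map_sum]
    have h3 : ∀ i, homogeneousComponent d (aeval ℓ (homogeneousComponent i H)) =
        if i = d then aeval ℓ (homogeneousComponent d H) else 0 := by
      intro i
      have h4 : (aeval ℓ (homogeneousComponent i H)).IsHomogeneous i := by
        have := (homogeneousComponent_isHomogeneous i H).aeval ℓ hℓ
        rwa [one_mul] at this
      rw [homogeneousComponent_of_mem (m := d) (n := i) ((mem_homogeneousSubmodule _ _).2 h4)]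
      by_cases hid : i = d
      · subst hid; simp
      · rw [if_neg hid, if_neg (fun h => hid h.symm)]
    simp only [h3]
    rw [Finset.sum_ite_eq']
    split_ifs with h5
    · rfl
    · rw [Finset.mem_range, not_lt] at h5
      rw [homogeneousComponent_eq_zero _ _ (by omega), map_zero]
  rw [h2] at h1
  exact h1

theorem nn_fin [Infinite k] [Nontrivial B] (n : ℕ) : ∀ u : Fin n → B, HR k u →
    ∃ (d : ℕ) (θ : Fin d → B), (∀ l, θ l ∈ VV k u) ∧ AlgebraicIndependent k θ ∧
      ∃ N : ℕ, (VV k u) ^ (N + 1) ≤ VV k θ * (VV k u) ^ N := by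
  induction n with
  | zero =>
    intro u hu
    refine ⟨0, u, fun l => l.elim0, algebraicIndependent_empty_type, 0, ?_⟩
    simp
  | succ n ih =>
    intro u hu
    by_cases hi : AlgebraicIndependent k u
    · exact ⟨n + 1, u, fun l => Submodule.subset_span (Set.mem_range_self l), hi, 0, by simp⟩
    rw [algebraicIndependent_iff] at hi
    push Not at hi
    obtain ⟨G0, hG0, hG0ne⟩ := hi
    obtain ⟨e, he⟩ : ∃ e, homogeneousComponent e G0 ≠ 0 := by
      by_contra hcon
      push Not at hcon
      apply hG0ne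
      rw [← sum_homogeneousComponent G0]
      exact Finset.sum_eq_zero (fun i _ => hcon i)
    set G := homogeneousComponent e G0 with hG
    have hGh : G.IsHomogeneous e := homogeneousComponent_isHomogeneous e G0
    have hGu : aeval u G = 0 := hu G0 hG0 e
    have he1 : e ≠ 0 := by
      rintro rfl
      rw [homogeneousComponent_zero] at hG
      rw [hG, aeval_C] at hGu
      have h1 : coeff 0 G0 = 0 := (map_eq_zero_iff _ (algebraMap k B).injective).1 hGu
      exact he (by rw [hG, h1, C_0])
    obtain ⟨a, ha⟩ : ∃ a : Fin (n + 1) → k, eval a G ≠ 0 := by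
      by_contra hcon
      push Not at hcon
      exact he (hGh.eq_zero_of_forall_eval_eq_zero hcon)
    obtain ⟨j, hj⟩ : ∃ j, a j ≠ 0 := by
      by_contra hcon
      push Not at hcon
      apply ha
      have h1 : a = 0 := funext hcon
      rw [h1, eval_eq']
      refine Finset.sum_eq_zero (fun m hm => ?_)
      have h2 : ∑ i, m i = e := by
        rw [hGh.degree_eq_sum_deg_support hm]
        exact (Finset.sum_subset (Finset.subset_univ _) (fun i _ hi => by simpa using hi)).symm
      obtain ⟨i, hi⟩ : ∃ i, m i ≠ 0 := by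
        by_contra hc
        push Not at hc
        exact he1 (by rw [← h2]; exact Finset.sum_eq_zero (fun i _ => hc i))
      rw [Finset.prod_eq_zero (Finset.mem_univ i) (by simp [hi]), mul_zero]
    set r : Fin (n + 1) → k := fun i => a i / a j with hr
    have hrG : eval r G ≠ 0 := by
      have h1 : eval a G = a j ^ e * eval r G := by
        rw [eval_eq', eval_eq', Finset.mul_sum]
        refine Finset.sum_congr rfl (fun m hm => ?_)
        have h2 : ∑ i, m i = e := by
          rw [hGh.degree_eq_sum_deg_support hm]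
          exact (Finset.sum_subset (Finset.subset_univ _) (fun i _ hi => by simpa using hi)).symm
        rw [← h2, ← Finset.prod_pow_eq_pow_sum, mul_left_comm, ← Finset.prod_mul_distrib]
        congr 1
        refine Finset.prod_congr rfl (fun i _ => ?_)
        rw [hr, div_pow, mul_div_cancel₀]
        exact pow_ne_zero _ hj
      intro h2
      rw [h2, mul_zero] at h1
      exact ha h1
    set ℓ : Fin n → MvPolynomial (Fin (n + 1)) k :=
      fun i => X (j.succAbove i) - C (r (j.succAbove i)) * X j with hℓ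
    have hℓh : ∀ i, (ℓ i).IsHomogeneous 1 := by
      intro i
      refine (isHomogeneous_X _ _).sub ?_
      have := (isHomogeneous_C (Fin (n + 1)) (r (j.succAbove i))).mul (isHomogeneous_X k j)
      rwa [zero_add] at this
    set u' : Fin n → B := fun i => aeval u (ℓ i) with hu'
    have hu'e : ∀ i, u' i = u (j.succAbove i) - r (j.succAbove i) • u j := by
      intro i
      rw [hu', hℓ]
      simp only [map_sub, aeval_X, map_mul, aeval_C, Algebra.smul_def]
    obtain ⟨d, θ, hθ, hθi, N, hN⟩ := ih u' (HR_sub hu ℓ hℓh)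
    have hW' : VV k u' ≤ VV k u := by
      refine Submodule.span_le.2 ?_
      rintro _ ⟨i, rfl⟩
      rw [SetLike.mem_coe, hu'e]
      exact Submodule.sub_mem _ (Submodule.subset_span (Set.mem_range_self _))
        (Submodule.smul_mem _ _ (Submodule.subset_span (Set.mem_range_self _)))
    have hUW : Submodule.span k {u j} ≤ VV k u :=
      Submodule.span_le.2 (by
        rintro _ rfl
        exact Submodule.subset_span (Set.mem_range_self _))
    have hsup : VV k u' ⊔ Submodule.span k {u j} = VV k u := by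
      refine le_antisymm (sup_le hW' hUW) ?_
      refine Submodule.span_le.2 ?_
      rintro _ ⟨i, rfl⟩
      rw [SetLike.mem_coe]
      rcases Fin.eq_self_or_eq_succAbove j i with rfl | ⟨i', rfl⟩
      · exact Submodule.mem_sup_right (Submodule.mem_span_singleton_self _)
      · have h1 : u (j.succAbove i') = u' i' + r (j.succAbove i') • u j := by
          rw [hu'e]; ring
        rw [h1]
        exact Submodule.add_mem_sup (Submodule.subset_span (Set.mem_range_self _))
          (Submodule.smul_mem _ _ (Submodule.mem_span_singleton_self _))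
    have huj : u j ∈ VV k u := Submodule.subset_span (Set.mem_range_self _)
    have hP1 : ∀ i, PP (VV k u') (VV k u) (u j) 1 (u i) (r i) := by
      intro i
      refine ⟨by rw [pow_one]; exact Submodule.subset_span (Set.mem_range_self _), ?_⟩
      show u i - r i • u j ^ 1 ∈ VV k u' * VV k u ^ 0
      rw [pow_zero, mul_one, pow_one]
      rcases Fin.eq_self_or_eq_succAbove j i with rfl | ⟨i', rfl⟩
      · have h1 : r i = 1 := by rw [hr]; exact div_self hj
        rw [h1, one_smul, sub_self]
        exact Submodule.zero_mem _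
      · rw [← hu'e]
        exact Submodule.subset_span (Set.mem_range_self _)
    have hpow : u j ^ e ∈ JJ (VV k u') (VV k u) e := by
      have h1 := PP_poly huj hP1 hGh
      rw [hGu, zero_sub, ← neg_smul] at h1
      have h2 := Submodule.smul_mem _ (-(eval r G))⁻¹ h1
      rwa [smul_smul, inv_mul_cancel₀ (neg_ne_zero.2 hrG), one_smul] at h2
    obtain ⟨e', rfl⟩ : ∃ e', e = e' + 1 := ⟨e - 1, by omega⟩
    have hkey : (VV k u) ^ (e' + 1) ≤ VV k u' * (VV k u) ^ e' := by
      have h1 := sup_pow_le (VV k u') (Submodule.span k {u j}) (e' + 1)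
      rw [hsup] at h1
      refine h1.trans (sup_le le_rfl ?_)
      rw [Submodule.span_pow, Set.singleton_pow]
      refine Submodule.span_le.2 ?_
      rintro _ rfl
      exact hpow
    have hit : ∀ s : ℕ, (VV k u) ^ (e' + s) ≤ (VV k u') ^ s * (VV k u) ^ e' := by
      intro s
      induction s with
      | zero => simp
      | succ s ihs =>
        calc (VV k u) ^ (e' + (s + 1)) = (VV k u) ^ (e' + s) * VV k u := by
              rw [← add_assoc, pow_succ]
          _ ≤ (VV k u') ^ s * (VV k u) ^ e' * VV k u := by gcongr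
          _ = (VV k u') ^ s * (VV k u) ^ (e' + 1) := by rw [mul_assoc, ← pow_succ]
          _ ≤ (VV k u') ^ s * (VV k u' * (VV k u) ^ e') := by gcongr
          _ = (VV k u') ^ (s + 1) * (VV k u) ^ e' := by rw [← mul_assoc, ← pow_succ]
    refine ⟨d, θ, fun l => hW' (hθ l), hθi, N + e', ?_⟩
    calc (VV k u) ^ (N + e' + 1) = (VV k u) ^ (e' + (N + 1)) := by congr 1; ring
      _ ≤ (VV k u') ^ (N + 1) * (VV k u) ^ e' := hit (N + 1)
      _ ≤ VV k θ * (VV k u') ^ N * (VV k u) ^ e' := by gcongr
      _ ≤ VV k θ * (VV k u) ^ N * (VV k u) ^ e' := by gcongr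
      _ = VV k θ * (VV k u) ^ (N + e') := by rw [mul_assoc, ← pow_add]

end nn

theorem nn : S_NN := by
  intro k B ι _ _ _ _ _ _ z hz
  let e := Fintype.equivFin ι
  have hzu : HR k (fun i => z (e.symm i)) := by
    intro G hG d
    have h1 : ∀ P : MvPolynomial (Fin (Fintype.card ι)) k,
        aeval (fun i => z (e.symm i)) P = aeval z (rename e.symm P) := by
      intro P
      rw [aeval_rename]
      rfl
    rw [h1] at hG ⊢
    rw [rename_homogeneousComponent]
    exact hz _ hG d
  have hV : VV k (fun i => z (e.symm i)) = VV k z := by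
    unfold VV
    congr 1
    exact e.symm.surjective.range_comp z
  obtain ⟨d, θ, hθ, hθi, hN⟩ := nn_fin _ _ hzu
  rw [hV] at hN
  rw [← coverR_iff] at hN
  simp only [hV] at hθ
  choose v hv using fun l => (Submodule.mem_span_range_iff_exists_fun k).1 (hθ l)
  refine ⟨d, v, ?_, ?_⟩
  · simp only [hv]
    exact hθi
  · simp only [hv]
    exact hN

end Pool.Agent.Y978.GS
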