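import Pool.Agent.Y234.GS.StmB
import Pool.Agent.Y978.GS.NN

/-!
# Project GS: generic linear forms
-/

set_option autoImplicit false
set_option linter.unusedSectionVars false

namespace Pool.Agent.Y978.GS

open Pool.Agent.Y234.GS MvPolynomial

section gen

variable {k : Type} [Field k]

/-- Generic invertibility. -/
theorem gen_det {F σ : Type} [AddCommGroup F] [Module k F] [FiniteDimensional k F] [Fintype σ]
    (A : σ → (F →ₗ[k] F)) (v0 : σ → k) (h0 : ∑ s, v0 s • A s = LinearMap.id) :
    ∃ Φ : MvPolynomial σ k, eval v0 Φ ≠ 0 ∧ ∀ v : σ → k, eval v Φ ≠ 0 →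
      Function.Bijective (∑ s, v s • A s : F →ₗ[k] F) := by
  classical
  let b := Module.finBasis k F
  let M : σ → Matrix (Fin (Module.finrank k F)) (Fin (Module.finrank k F)) k :=
    fun s => LinearMap.toMatrix b b (A s)
  let Ψ : Matrix (Fin (Module.finrank k F)) (Fin (Module.finrank k F)) (MvPolynomial σ k) :=
    Matrix.of fun i j => ∑ s, X s * C (M s i j)
  have hev : ∀ v : σ → k, eval v Ψ.det = LinearMap.det (∑ s, v s • A s : F →ₗ[k] F) := by
    intro v
    rw [RingHom.map_det, ← LinearMap.det_toMatrix b]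
    congr 1
    ext i j
    simp only [RingHom.mapMatrix_apply, Matrix.map_apply, Ψ, Matrix.of_apply, map_sum, map_mul,
      eval_X, eval_C, M]
    rw [Matrix.sum_apply]
    simp
  refine ⟨Ψ.det, ?_, fun v hv => ?_⟩
  · rw [hev, h0, LinearMap.det_id]
    exact one_ne_zero
  · rw [hev] at hv
    have h1 := (LinearMap.equivOfDetNeZero (∑ s, v s • A s : F →ₗ[k] F) hv).bijective
    exact h1

end gen

section dimb

variable {k B ι : Type} [Field k] [CommRing B] [Algebra k B] [Fintype ι]

theorem fg_pow (z : ι → B) (e : ℕ) : ((VV k z) ^ e).FG :=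
  Submodule.FG.pow (Submodule.fg_span (Set.finite_range z)) e

instance finite_pow (z : ι → B) (e : ℕ) : Module.Finite k ↥((VV k z) ^ e) :=
  Module.Finite.iff_fg.2 (fg_pow z e)

theorem dim_bound (z : ι → B) {d : ℕ} (θ : Fin d → B) (hθ : ∀ l, θ l ∈ VV k z)
    (hi : AlgebraicIndependent k θ) (D C : ℕ) (hD : 1 ≤ D)
    (hg : ∀ e : ℕ, Module.finrank k ↥((VV k z) ^ e) ≤ C * (e + 1) ^ (D - 1)) : d ≤ D := by
  by_contra hcon
  push Not at hcon
  have hle : D + 1 ≤ d := hcon
  set θ' : Fin (D + 1) → B := fun l => θ (Fin.castLE hle l) with hθ'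
  have hi' : AlgebraicIndependent k θ' := hi.comp _ (Fin.castLE_injective hle)
  have hVV : VV k θ' ≤ VV k z := by
    refine Submodule.span_le.2 ?_
    rintro _ ⟨l, rfl⟩
    exact hθ _
  set q := C * D ^ (D - 1) with hq
  set g : (Fin D → Fin (q + 1)) → (Fin (D + 1) →₀ ℕ) := fun b =>
    Finsupp.equivFunOnFinite.symm (Fin.cons (D * q - ∑ l, (b l : ℕ)) (fun l => (b l : ℕ))) with hgdef
  have hginj : Function.Injective g := by
    intro b b' hbb
    funext l
    have h1 := DFunLike.congr_fun hbb l.succ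
    simp only [hgdef, Finsupp.equivFunOnFinite_symm_apply_apply, Fin.cons_succ] at h1
    exact Fin.ext h1
  have hlin : LinearIndependent k (fun b => aeval θ' (monomial (g b) (1 : k))) := by
    have h1 : LinearIndependent k (fun b => (monomial (g b) (1 : k) :
        MvPolynomial (Fin (D + 1)) k)) := by
      have h2 := (basisMonomials (Fin (D + 1)) k).linearIndependent.comp g hginj
      rw [coe_basisMonomials] at h2
      exact h2
    exact h1.map' (aeval θ').toLinearMap (LinearMap.ker_eq_bot.2 hi')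
  have hdeg : ∀ b, (monomial (g b) (1 : k)).IsHomogeneous (D * q) := by
    intro b
    refine isHomogeneous_monomial _ ?_
    rw [Finsupp.degree_eq_sum]
    simp only [hgdef, Finsupp.equivFunOnFinite_symm_apply_apply, Fin.sum_univ_succ, Fin.cons_zero,
      Fin.cons_succ]
    refine Nat.sub_add_cancel ?_
    calc ∑ l, (b l : ℕ) ≤ ∑ _l : Fin D, q :=
          Finset.sum_le_sum (fun l _ => Nat.lt_succ_iff.1 (b l).2)
      _ = D * q := by simp
  have hmem : ∀ b, aeval θ' (monomial (g b) (1 : k)) ∈ (VV k z) ^ (D * q) := fun b =>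
    pow_le_pow_left' hVV _ (aeval_mem_pow (hdeg b))
  have hlin2 : LinearIndependent k
      (fun b => (⟨aeval θ' (monomial (g b) (1 : k)), hmem b⟩ : ↥((VV k z) ^ (D * q)))) :=
    LinearIndependent.of_comp (Submodule.subtype _) hlin
  have hcard := hlin2.fintype_card_le_finrank
  rw [Fintype.card_fun, Fintype.card_fin, Fintype.card_fin] at hcard
  have h1 := hcard.trans (hg (D * q))
  obtain ⟨D', rfl⟩ : ∃ D', D = D' + 1 := ⟨D - 1, by omega⟩
  rw [Nat.add_sub_cancel] at h1 hq
  have h2 : (D' + 1) * q + 1 ≤ (D' + 1) * (q + 1) := by nlinarith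
  have h3 : (q + 1) * (q + 1) ^ D' ≤ q * (q + 1) ^ D' := by
    calc (q + 1) * (q + 1) ^ D' = (q + 1) ^ (D' + 1) := by ring
      _ ≤ C * ((D' + 1) * q + 1) ^ D' := h1
      _ ≤ C * ((D' + 1) * (q + 1)) ^ D' := by gcongr
      _ = q * (q + 1) ^ D' := by rw [hq, mul_pow]; ring
  have h4 : 0 < (q + 1) ^ D' := by positivity
  have h5 := Nat.le_of_mul_le_mul_right h3 h4
  omega

end dimb

theorem gnn : S_NN → S_GNN := by
  intro hN k B ι _ _ _ _ _ _ z D C hD hz hg
  classical
  obtain ⟨d, v, hi, hcov⟩ := hN k B ι z hz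
  obtain ⟨N, hN⟩ := coverR_iff.1 hcov
  set θ : Fin d → B := fun l => ∑ i, v l i • z i with hθ
  have hθm : ∀ l, θ l ∈ VV k z := fun l => Submodule.sum_mem _ (fun i _ =>
    Submodule.smul_mem _ _ (Submodule.subset_span (Set.mem_range_self i)))
  have hdD : d ≤ D := dim_bound z θ hθm hi D C hD hg
  set v0 : Fin D × ι → k := fun s => if h : (s.1 : ℕ) < d then v ⟨s.1, h⟩ s.2 else 0 with hv0
  set T : Fin D × ι → ((Fin D → ↥((VV k z) ^ N)) →ₗ[k] ↥((VV k z) ^ (N + 1))) := fun s =>
    LinearMap.codRestrict ((VV k z) ^ (N + 1))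
      ((LinearMap.mulLeft k (z s.2)).comp ((Submodule.subtype _).comp (LinearMap.proj s.1)))
      (fun r => by
        rw [pow_succ']
        exact Submodule.mul_mem_mul (Submodule.subset_span (Set.mem_range_self s.2))
          (r s.1).2) with hT
  have hTv : ∀ (u : Fin D × ι → k) (r : Fin D → ↥((VV k z) ^ N)),
      (((∑ s, u s • T s) r : ↥((VV k z) ^ (N + 1))) : B) =
        ∑ l, (∑ i, u (l, i) • z i) * (r l : B) := by
    intro u r
    rw [LinearMap.sum_apply, Submodule.coe_sum, Fintype.sum_prod_type]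
    refine Finset.sum_congr rfl (fun l _ => ?_)
    rw [Finset.sum_mul]
    refine Finset.sum_congr rfl (fun i _ => ?_)
    simp only [LinearMap.smul_apply, Submodule.coe_smul, hT, LinearMap.codRestrict_apply,
      LinearMap.comp_apply, LinearMap.mulLeft_apply, LinearMap.proj_apply,
      Submodule.subtype_apply, smul_mul_assoc]
  have hsurj : LinearMap.range (∑ s, v0 s • T s) = ⊤ := by
    rw [LinearMap.range_eq_top]
    intro a
    have h1 : VV k θ ≤ VV k (fun l : Fin D => ∑ i, v0 (l, i) • z i) := by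
      refine Submodule.span_le.2 ?_
      rintro _ ⟨l, rfl⟩
      refine Submodule.subset_span ⟨Fin.castLE hdD l, ?_⟩
      simp only [hv0, hθ]
      refine Finset.sum_congr rfl (fun i _ => ?_)
      rw [dif_pos (by simp : ((Fin.castLE hdD l : Fin D) : ℕ) < d)]
      congr 2
    have h2 : (a : B) ∈ VV k (fun l : Fin D => ∑ i, v0 (l, i) • z i) * (VV k z) ^ N :=
      (mul_le_mul' h1 le_rfl) (hN a.2)
    obtain ⟨r, hr, hra⟩ := mem_VV_mul h2
    refine ⟨fun l => ⟨r l, hr l⟩, Subtype.ext ?_⟩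
    rw [hTv]
    exact hra.symm
  obtain ⟨g, hg'⟩ := LinearMap.exists_rightInverse_of_surjective _ hsurj
  have hcomp : ∀ u : Fin D × ι → k, ∑ s, u s • ((T s).comp g) = (∑ s, u s • T s).comp g := by
    intro u
    refine LinearMap.ext (fun a => ?_)
    simp [LinearMap.sum_apply]
  obtain ⟨Φ, hΦ0, hΦ⟩ := gen_det (fun s => (T s).comp g) v0 (by rw [hcomp, hg'])
  refine ⟨Φ, fun h => hΦ0 (by rw [h, map_zero]), fun u hu => ?_⟩
  refine ⟨N, fun a ha => ?_⟩
  obtain ⟨b, hb⟩ := (hΦ u hu).2 ⟨a, ha⟩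
  rw [hcomp, LinearMap.comp_apply] at hb
  refine ⟨fun l => (g b l : B), fun l => (g b l).2, ?_⟩
  rw [← hTv, hb]

section model

variable {K L ι : Type} [Field K] [Field L] [Algebra K L] [Fintype ι]

theorem cover_pow {D : ℕ} {W : Submodule K L} {θ : Fin D → L} {N : ℕ}
    (h : W ^ (N + 1) ≤ VV K θ * W ^ N) (e : ℕ) : W ^ (N + e) ≤ (VV K θ) ^ e * W ^ N := by
  induction e with
  | zero => simp
  | succ e ih =>
    calc W ^ (N + (e + 1)) = W ^ (N + e) * W := by rw [← add_assoc, pow_succ]
      _ ≤ (VV K θ) ^ e * W ^ N * W := by gcongr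
      _ = (VV K θ) ^ e * W ^ (N + 1) := by rw [mul_assoc, ← pow_succ]
      _ ≤ (VV K θ) ^ e * (VV K θ * W ^ N) := by gcongr
      _ = (VV K θ) ^ (e + 1) * W ^ N := by rw [← mul_assoc, ← pow_succ]

theorem isIntegral_of_cover {D : ℕ} {x : ι → L} {θ : Fin D → L} (hx : ∀ i, x i ≠ 0)
    (hc : Cover (VV K x) θ) (i : ι) : IsIntegral (Algebra.adjoin K (Set.range θ)) (x i) := by
  obtain ⟨N, hN⟩ := hc
  set P := Algebra.adjoin K (Set.range θ) with hP
  obtain ⟨s, hs⟩ := fg_pow (k := K) x N
  have hspan : Submodule.span P ((((VV K x) ^ N : Submodule K L)) : Set L) =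
      Submodule.span P (s : Set L) := by
    rw [← hs]
    exact Submodule.span_span_of_tower K P (s : Set L)
  refine isIntegral_of_smul_mem_submodule
    (Submodule.span P ((((VV K x) ^ N : Submodule K L)) : Set L)) ?_ ?_ (x i) ?_
  · intro hbot
    have h1 : x i ^ N ∈ Submodule.span P ((((VV K x) ^ N : Submodule K L)) : Set L) :=
      Submodule.subset_span (Submodule.pow_mem_pow _
        (Submodule.subset_span (Set.mem_range_self i)) N)
    rw [hbot, Submodule.mem_bot] at h1
    exact pow_ne_zero N (hx i) h1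
  · rw [hspan]
    exact Submodule.fg_span s.finite_toSet
  · intro a ha
    induction ha using Submodule.span_induction with
    | mem a ha =>
      have h1 : x i * a ∈ (VV K x) ^ (N + 1) := by
        rw [pow_succ']
        exact Submodule.mul_mem_mul (Submodule.subset_span (Set.mem_range_self i)) ha
      obtain ⟨r, hr, hra⟩ := hN _ h1
      rw [smul_eq_mul, hra]
      refine Submodule.sum_mem _ (fun l _ => ?_)
      have h2 : θ l * r l = (⟨θ l, Algebra.subset_adjoin (Set.mem_range_self l)⟩ : P) • r l := rfl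
      rw [h2]
      exact Submodule.smul_mem _ _ (Submodule.subset_span (hr l))
    | zero => rw [smul_zero]; exact Submodule.zero_mem _
    | add a b _ _ ha hb => rw [smul_add]; exact Submodule.add_mem _ ha hb
    | smul p a _ ha =>
      rw [smul_comm]
      exact Submodule.smul_mem _ _ ha

theorem isAlgebraic_of_cover {D : ℕ} {x : ι → L} {θ : Fin D → L} (hM : Model K x)
    (hc : Cover (VV K x) θ) : Algebra.IsAlgebraic (Algebra.adjoin K (Set.range θ)) L := by
  set P := Algebra.adjoin K (Set.range θ) with hP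
  have hint : ∀ G : MvPolynomial ι K, IsIntegral P (aeval x G) := by
    intro G
    induction G using MvPolynomial.induction_on with
    | C a =>
      rw [aeval_C]
      have h1 : algebraMap K L a = algebraMap P L (algebraMap K P a) := rfl
      rw [h1]
      exact isIntegral_algebraMap
    | add p q hp hq => rw [map_add]; exact hp.add hq
    | mul_X p i hp =>
      rw [map_mul, aeval_X]
      exact hp.mul (isIntegral_of_cover hM.ne hc i)
  constructor
  intro a
  obtain ⟨G, H, hH, hGH⟩ := hM.gen a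
  have h1 : a = aeval x G * (aeval x H)⁻¹ := by
    rw [← hGH, mul_assoc, mul_inv_cancel₀ hH, mul_one]
  rw [h1]
  exact (hint G).isAlgebraic.mul (hint H).isAlgebraic.inv

theorem mem_pow_iff {D : ℕ} {θ : Fin D → L} {e : ℕ} {a : L} (ha : a ∈ (VV K θ) ^ e) :
    ∃ G : MvPolynomial (Fin D) K, G.IsHomogeneous e ∧ a = aeval θ G := by
  have h1 : VV K θ = Submodule.map (aeval θ).toLinearMap (homogeneousSubmodule (Fin D) K 1) := by
    rw [homogeneousSubmodule_one_eq_span_X, Submodule.map_span, ← Set.range_comp]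
    unfold VV
    congr 2
    funext l
    simp
  rw [h1, ← Submodule.map_pow, homogeneousSubmodule_one_pow] at ha
  obtain ⟨G, hG, rfl⟩ := ha
  exact ⟨G, (mem_homogeneousSubmodule _ _).1 hG, rfl⟩

/-- monomials of degree `e` -/
noncomputable def Mb {D : ℕ} (θ : Fin (D + 1) → L) (e : ℕ) (b : Fin D → Fin (e + 1)) : L :=
  θ 0 ^ (e - ∑ l, (b l : ℕ)) * ∏ l, θ l.succ ^ (b l : ℕ)

theorem pow_le_span {D : ℕ} (θ : Fin (D + 1) → L) (e : ℕ) :
    (VV K θ) ^ e ≤ Submodule.span K (Set.range (Mb θ e)) := by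
  intro a ha
  obtain ⟨G, hG, rfl⟩ := mem_pow_iff ha
  rw [aeval_def, eval₂_eq']
  refine Submodule.sum_mem _ (fun m hm => ?_)
  rw [← Algebra.smul_def]
  refine Submodule.smul_mem _ _ (Submodule.subset_span ?_)
  have h2 : ∑ i, m i = e := by
    rw [hG.degree_eq_sum_deg_support hm]
    exact (Finset.sum_subset (Finset.subset_univ _) (fun i _ hi => by simpa using hi)).symm
  rw [Fin.sum_univ_succ] at h2
  have h3 : ∀ l : Fin D, m l.succ < e + 1 := by
    intro l
    have := Finset.single_le_sum (f := fun l : Fin D => m l.succ) (fun _ _ => Nat.zero_le _)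
      (Finset.mem_univ l)
    omega
  refine ⟨fun l => ⟨m l.succ, h3 l⟩, ?_⟩
  unfold Mb
  rw [Fin.prod_univ_succ]
  congr 2
  simp only
  omega

theorem growth {D : ℕ} {x : ι → L} {θ : Fin (D + 1) → L} (hc : Cover (VV K x) θ) :
    ∃ C : ℕ, ∀ e : ℕ, Module.finrank K ↥((VV K x) ^ e) ≤ C * (e + 1) ^ D := by
  classical
  obtain ⟨N, hN⟩ := coverR_iff.1 (show CoverR (VV K x) θ from hc)
  obtain ⟨s, hs⟩ := fg_pow (k := K) x N
  have h1 : ∀ e : ℕ, Module.finrank K ↥((VV K x) ^ (N + e)) ≤ s.card * (e + 1) ^ D := by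
    intro e
    have h2 : (VV K x) ^ (N + e) ≤ Submodule.span K
        (Set.range (fun p : (Fin D → Fin (e + 1)) × s => Mb θ e p.1 * (p.2 : L))) := by
      refine (cover_pow hN e).trans ?_
      rw [← hs]
      refine (mul_le_mul' (pow_le_span θ e) le_rfl).trans ?_
      rw [Submodule.span_mul_span]
      refine Submodule.span_mono ?_
      rintro _ ⟨_, ⟨b, rfl⟩, g, hg, rfl⟩
      exact ⟨(b, ⟨g, hg⟩), rfl⟩
    have h3 := finrank_range_le_card (R := K)
      (b := fun p : (Fin D → Fin (e + 1)) × s => Mb θ e p.1 * (p.2 : L))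
    rw [Fintype.card_prod, Fintype.card_fun, Fintype.card_fin, Fintype.card_fin,
      Fintype.card_coe] at h3
    have : Module.Finite K ↥(Submodule.span K
        (Set.range (fun p : (Fin D → Fin (e + 1)) × s => Mb θ e p.1 * (p.2 : L)))) :=
      Module.Finite.iff_fg.2 (Submodule.fg_span (Set.finite_range _))
    calc Module.finrank K ↥((VV K x) ^ (N + e)) ≤ _ := Submodule.finrank_mono h2
      _ ≤ (e + 1) ^ D * s.card := h3
      _ = s.card * (e + 1) ^ D := mul_comm _ _
  refine ⟨s.card + ∑ e ∈ Finset.range N, Module.finrank K ↥((VV K x) ^ e), fun e => ?_⟩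
  rcases lt_or_ge e N with he | he
  · calc Module.finrank K ↥((VV K x) ^ e) ≤
          ∑ e ∈ Finset.range N, Module.finrank K ↥((VV K x) ^ e) :=
          Finset.single_le_sum (f := fun e => Module.finrank K ↥((VV K x) ^ e))
            (fun _ _ => Nat.zero_le _) (Finset.mem_range.2 he)
      _ ≤ s.card + ∑ e ∈ Finset.range N, Module.finrank K ↥((VV K x) ^ e) :=
          Nat.le_add_left _ _
      _ ≤ _ := Nat.le_mul_of_pos_right _ (by positivity)
  · obtain ⟨e', rfl⟩ := Nat.exists_eq_add_of_le he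
    refine (h1 e').trans ?_
    gcongr
    · exact Nat.le_add_right _ _
    · exact Nat.le_add_left _ _

end model

theorem nnd : S_NN → S_NND := by
  intro hN K L ι _ _ _ _ _ x D hM htr
  have hA : ∃ v : Fin D → ι → K, AlgebraicIndependent K (fun l => ∑ i, v l i • x i) ∧
      Cover (VV K x) (fun l => ∑ i, v l i • x i) := by
    obtain ⟨d, v, hi, hcov⟩ := hN K L ι x hM.hom
    have halg := isAlgebraic_of_cover hM
      (show Cover (VV K x) (fun l => ∑ i, v l i • x i) from hcov)
    have hb := hi.isTranscendenceBasis_iff_isAlgebraic.2 halg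
    have h1 := hb.cardinalMk_eq_trdeg
    rw [htr] at h1
    have h2 : d = D := by
      have h3 : ((d : ℕ) : Cardinal) = (D : Cardinal) := by
        rw [← h1]; simp
      exact_mod_cast h3
    subst h2
    exact ⟨v, hi, hcov⟩
  refine ⟨hA, fun hD => ?_, fun v hcov => ?_⟩
  · obtain ⟨v, hi, hcov⟩ := hA
    obtain ⟨D', rfl⟩ : ∃ D', D = D' + 1 := ⟨D - 1, by omega⟩
    exact growth hcov
  · have halg := isAlgebraic_of_cover hM hcov
    exact (Algebra.IsAlgebraic.isTranscendenceBasis_of_le_trdeg_of_finite K _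
      (by rw [htr]; simp)).1

theorem tf1 : S_GNN → S_NND → S_TF1 := by
  intro hG hN K L ι _ _ _ _ _ x D T hD hM htr hT
  classical
  obtain ⟨C, hC⟩ := (hN K L ι x D hM htr).2.1 hD
  obtain ⟨Φ, hΦ0, hΦ⟩ := hG K L ι x D C hD hM.hom hC
  -- the linear maps
  set S : Fin D × ι → (↥T →ₗ[K] (Fin D → K)) := fun s =>
    (LinearMap.single K (fun _ : Fin D => K) s.1).comp
      ((LinearMap.proj s.2).comp (Submodule.subtype T)) with hS
  have hSv : ∀ (v : Fin D × ι → K) (u : ↥T) (l : Fin D),
      (∑ s, v s • S s : ↥T →ₗ[K] (Fin D → K)) u l = ∑ i, v (l, i) * (u : ι → K) i := by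
    intro v u l
    rw [LinearMap.sum_apply, Finset.sum_apply, Fintype.sum_prod_type,
      Finset.sum_eq_single l]
    · refine Finset.sum_congr rfl (fun i _ => ?_)
      simp [hS]
    · intro l' _ hl'
      refine Finset.sum_eq_zero (fun i _ => ?_)
      simp [hS, hl'.symm]
    · intro h
      exact absurd (Finset.mem_univ l) h
  let b := Module.finBasis K ↥T
  let j : ↥T →ₗ[K] (Fin D → K) := LinearMap.pi (fun l =>
    if h : (l : ℕ) < Module.finrank K ↥T then b.coord ⟨l, h⟩ else 0)
  have hj : ∀ u, j u = 0 → u = 0 := by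
    intro u hu
    refine b.ext_elem (fun i => ?_)
    have h1 := congrFun hu (Fin.castLE hT i)
    have h2 : ((Fin.castLE hT i : Fin D) : ℕ) < Module.finrank K ↥T := by simp
    simp only [j, LinearMap.pi_apply, dif_pos h2] at h1
    simpa using h1
  obtain ⟨J, hJ⟩ := j.exists_extend
  set v1 : Fin D × ι → K := fun s => J (Pi.single s.2 1) s.1 with hv1
  have hJv : (∑ s, v1 s • S s : ↥T →ₗ[K] (Fin D → K)) = j := by
    refine LinearMap.ext (fun u => funext (fun l => ?_))
    rw [hSv, ← hJ, LinearMap.comp_apply, Submodule.subtype_apply]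
    conv_rhs => rw [LinearMap.pi_apply_eq_sum_univ J (u : ι → K)]
    rw [Finset.sum_apply]
    refine Finset.sum_congr rfl (fun i _ => ?_)
    have h1 : (fun j => if i = j then (1 : K) else 0) = Pi.single i 1 := by
      funext i'
      by_cases h : i = i'
      · subst h; simp
      · simp [h, Ne.symm h]
    rw [Pi.smul_apply, smul_eq_mul, mul_comm, h1]
  have hker : LinearMap.ker (∑ s, v1 s • S s : ↥T →ₗ[K] (Fin D → K)) = ⊥ := by
    rw [hJv, LinearMap.ker_eq_bot']
    exact hj
  obtain ⟨g, hg⟩ := LinearMap.exists_leftInverse_of_injective _ hker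
  have hcomp : ∀ u : Fin D × ι → K, ∑ s, u s • (g.comp (S s)) = g.comp (∑ s, u s • S s) := by
    intro u
    refine LinearMap.ext (fun a => ?_)
    simp [LinearMap.sum_apply]
  obtain ⟨Φ2, hΦ20, hΦ2⟩ := gen_det (fun s => g.comp (S s)) v1 (by rw [hcomp, hg])
  have hne : Φ * Φ2 ≠ 0 := mul_ne_zero hΦ0 (fun h => hΦ20 (by rw [h, map_zero]))
  obtain ⟨v, hv⟩ : ∃ v, eval v (Φ * Φ2) ≠ 0 := by
    by_contra hcon
    push Not at hcon
    exact hne (MvPolynomial.funext (fun v => by rw [hcon v, map_zero]))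
  rw [map_mul] at hv
  refine ⟨fun l i => v (l, i), hΦ v (left_ne_zero_of_mul hv), fun u hu hul => ?_⟩
  have hinj := (hΦ2 v (right_ne_zero_of_mul hv)).1
  rw [hcomp] at hinj
  have h1 : (∑ s, v s • S s : ↥T →ₗ[K] (Fin D → K)) ⟨u, hu⟩ = 0 := by
    funext l
    rw [hSv]
    exact hul l
  have h2 : (⟨u, hu⟩ : ↥T) = 0 := by
    apply hinj
    rw [LinearMap.comp_apply, h1, map_zero, map_zero]
  exact congrArg Subtype.val h2

end Pool.Agent.Y978.GS
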