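import Pool.Agent.Y234.GS.StmB
import Pool.Agent.Y978.GS.GNN

/-!
# Project GS: generic forms over the discrete valuation ring
-/

set_option autoImplicit false
set_option linter.unusedSectionVars false

namespace Pool.Agent.Y978.GS

open Pool.Agent.Y234.GS MvPolynomial

section general

variable {O B σ τ : Type} [CommRing O] [CommRing B] [Algebra O B]

/-- homogeneous relations over a ring -/
def HRO (O : Type) {B σ : Type} [CommRing O] [CommRing B] [Algebra O B] (z : σ → B) : Prop :=
  ∀ G : MvPolynomial σ O, aeval z G = 0 → ∀ d : ℕ, aeval z (homogeneousComponent d G) = 0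

theorem HRO_sub {u : σ → B} (hu : HRO O u) (ℓ : τ → MvPolynomial σ O)
    (hℓ : ∀ i, (ℓ i).IsHomogeneous 1) : HRO O (fun i => aeval u (ℓ i)) := by
  intro H hH d
  have hcomp : ∀ P : MvPolynomial τ O,
      aeval (fun i => aeval u (ℓ i)) P = aeval u (aeval ℓ P) := by
    intro P
    rw [← AlgHom.comp_apply, comp_aeval]
  rw [hcomp] at hH ⊢
  have h1 := hu _ hH d
  have h2 : homogeneousComponent d (aeval ℓ H) = aeval ℓ (homogeneousComponent d H) := by
    conv_lhs => rw [← sum_homogeneousComponent H]
    rw [map_sum, map_sum]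
    have h3 : ∀ i, homogeneousComponent d (aeval ℓ (homogeneousComponent i H)) =
        if i = d then aeval ℓ (homogeneousComponent d H) else 0 := by
      intro i
      have h4 : (aeval ℓ (homogeneousComponent i H)).IsHomogeneous i := by
        have := (homogeneousComponent_isHomogeneous i H).aeval ℓ hℓ
        rwa [one_mul] at this
      rw [homogeneousComponent_of_mem (m := d) (n := i) ((mem_homogeneousSubmodule _ _).2 h4)]
      by_cases hid : i = d
      · subst hid; simp
      · rw [if_neg hid, if_neg (fun h => hid h.symm)]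
    simp only [h3]
    rw [Finset.sum_ite_eq']
    split_ifs with h5
    · rfl
    · rw [Finset.mem_range, not_lt] at h5
      rw [homogeneousComponent_eq_zero _ _ (by omega), map_zero]
  rw [h2] at h1
  exact h1

theorem hc_map {O' : Type} [CommRing O'] (f : O →+* O') (d : ℕ) (G : MvPolynomial σ O) :
    homogeneousComponent d (map f G) = map f (homogeneousComponent d G) := by
  ext m
  rw [coeff_homogeneousComponent, coeff_map, coeff_map, coeff_homogeneousComponent]
  split_ifs <;> simp

theorem mem_span_pow_iff (z : σ → B) (e : ℕ) (a : B) :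
    a ∈ (Submodule.span O (Set.range z)) ^ e ↔
      ∃ G : MvPolynomial σ O, G.IsHomogeneous e ∧ a = aeval z G := by
  have h1 : Submodule.span O (Set.range z) =
      Submodule.map (aeval z).toLinearMap (homogeneousSubmodule σ O 1) := by
    rw [homogeneousSubmodule_one_eq_span_X, Submodule.map_span, ← Set.range_comp]
    congr 2
    funext l
    simp
  rw [h1, ← Submodule.map_pow, homogeneousSubmodule_one_pow]
  constructor
  · rintro ⟨G, hG, rfl⟩
    exact ⟨G, (mem_homogeneousSubmodule _ _).1 hG, rfl⟩
  · rintro ⟨G, hG, rfl⟩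
    exact ⟨G, (mem_homogeneousSubmodule _ _).2 hG, rfl⟩

theorem mem_span_mul {D : ℕ} {θ : Fin D → B} {M : Submodule O B} {a : B}
    (ha : a ∈ Submodule.span O (Set.range θ) * M) :
    ∃ r : Fin D → B, (∀ l, r l ∈ M) ∧ a = ∑ l, θ l * r l := by
  induction ha using Submodule.mul_induction_on' with
  | mem_mul_mem m hm n hn =>
    obtain ⟨c, rfl⟩ := (Submodule.mem_span_range_iff_exists_fun O).1 hm
    refine ⟨fun l => c l • n, fun l => Submodule.smul_mem _ _ hn, ?_⟩
    rw [Finset.sum_mul]
    exact Finset.sum_congr rfl (fun l _ => by rw [smul_mul_assoc, mul_smul_comm])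
  | add x _ y _ hx hy =>
    obtain ⟨r, hr, rfl⟩ := hx
    obtain ⟨r', hr', rfl⟩ := hy
    refine ⟨fun l => r l + r' l, fun l => Submodule.add_mem _ (hr l) (hr' l), ?_⟩
    rw [← Finset.sum_add_distrib]
    exact Finset.sum_congr rfl (fun l _ => by ring)

end general

section dvr

variable {k O k1 L1 ι : Type} [Field k] [CommRing O] [IsDomain O]
    [IsDiscreteValuationRing O] [Field k1] [Field L1] [Algebra k O] [Algebra O k1]
    [IsFractionRing O k1] [Algebra k1 L1] [Algebra O L1] [Algebra k L1] [IsScalarTower O k1 L1]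
    [IsScalarTower k O L1] [Fintype ι]

theorem inj_O (O k1 L1 : Type) [CommRing O] [IsDomain O] [Field k1] [Field L1] [Algebra O k1]
    [IsFractionRing O k1] [Algebra k1 L1] [Algebra O L1] [IsScalarTower O k1 L1] :
    Function.Injective (algebraMap O L1) := by
  rw [IsScalarTower.algebraMap_eq O k1 L1]
  exact (algebraMap k1 L1).injective.comp (IsFractionRing.injective O k1)

theorem HRO_y {t : O} {X : ι → L1} {w : ι → ℕ} (hM : Model k1 X) :
    HRO k1 (fun i => t ^ w i • X i) := by
  have h1 := HRO_sub (O := k1) (u := X) (fun G hG d => hM.hom G hG d)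
    (fun i => C (algebraMap O k1 (t ^ w i)) * MvPolynomial.X i) (fun i => by
      have := (isHomogeneous_C ι (algebraMap O k1 (t ^ w i))).mul (isHomogeneous_X k1 i)
      rwa [zero_add] at this)
  have h2 : (fun i => aeval X (C (algebraMap O k1 (t ^ w i)) * MvPolynomial.X i)) =
      (fun i => t ^ w i • X i) := by
    funext i
    rw [map_mul, aeval_C, aeval_X, ← IsScalarTower.algebraMap_apply O k1 L1, Algebra.smul_def]
  rwa [h2] at h1

theorem aeval_map_alg {R A C' σ : Type} [CommRing R] [CommRing A] [CommRing C'] [Algebra R A]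
    [Algebra R C'] [Algebra A C'] [IsScalarTower R A C'] (y : σ → C') (G : MvPolynomial σ R) :
    aeval y (map (algebraMap R A) G) = aeval y G :=
  aeval_map_algebraMap A y G

/-- Homogeneous components of a relation modulo `t`. -/
theorem hc_rel {t : O} {y : ι → L1} (hy : HRO k1 y) {G : MvPolynomial ι k}
    {H : MvPolynomial ι O} (h : aeval y G = t • aeval y H) (d : ℕ) :
    aeval y (homogeneousComponent d G) = t • aeval y (homogeneousComponent d H) := by
  set P : MvPolynomial ι O := map (algebraMap k O) G - C t * H with hP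
  have h1 : aeval y P = 0 := by
    rw [hP, map_sub, map_mul, aeval_C, aeval_map_alg, h, Algebra.smul_def, sub_self]
  have h2 : aeval y (map (algebraMap O k1) P) = 0 := by
    rw [aeval_map_alg, h1]
  have h3 := hy _ h2 d
  rw [hc_map, aeval_map_alg, hP, map_sub, homogeneousComponent_C_mul, hc_map, map_sub, map_mul,
    aeval_C, aeval_map_alg, sub_eq_zero] at h3
  rw [h3, Algebra.smul_def]

/-- The ideal of relations modulo `t`. -/
def Irel (k : Type) {O L1 ι : Type} [Field k] [CommRing O] [Field L1] [Algebra k O]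
    [Algebra O L1] [Algebra k L1] [IsScalarTower k O L1] (t : O) (y : ι → L1) :
    Ideal (MvPolynomial ι k) where
  carrier := {G | ∃ H : MvPolynomial ι O, aeval y G = t • aeval y H}
  zero_mem' := ⟨0, by simp⟩
  add_mem' := by
    rintro G G' ⟨H, h⟩ ⟨H', h'⟩
    exact ⟨H + H', by rw [map_add, map_add, h, h', smul_add]⟩
  smul_mem' := by
    rintro G' G ⟨H, h⟩
    refine ⟨map (algebraMap k O) G' * H, ?_⟩
    rw [smul_eq_mul, map_mul, map_mul, h, mul_smul_comm, aeval_map_alg]

/-- A relation with a coefficient prime to `t`. -/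
theorem exists_prim {t : O} (ht : Irreducible t) {m : ℕ} {a : Fin m → L1}
    (hinj : Function.Injective (algebraMap O L1)) (j0 : Fin m) :
    ∀ (n : ℕ) (o : Fin m → O), ¬ t ^ n ∣ o j0 → ∑ j, o j • a j = 0 →
      ∃ o' : Fin m → O, (∃ j, ¬ t ∣ o' j) ∧ ∑ j, o' j • a j = 0 := by
  intro n
  induction n with
  | zero =>
    intro o ho
    exact absurd (by simp) ho
  | succ n ih =>
    intro o ho hs
    by_cases hall : ∃ j, ¬ t ∣ o j
    · exact ⟨o, hall, hs⟩
    · push Not at hall
      choose p hp using hall
      refine ih p ?_ ?_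
      · rintro ⟨q, hq⟩
        refine ho ⟨q, ?_⟩
        rw [hp j0, hq]
        ring
      · have h1 : t • ∑ j, p j • a j = 0 := by
          rw [← hs, Finset.smul_sum]
          refine Finset.sum_congr rfl (fun j _ => ?_)
          rw [smul_smul, ← hp j]
        rw [Algebra.smul_def] at h1
        refine (mul_eq_zero.1 h1).resolve_left (fun h2 => ?_)
        exact ht.ne_zero ((map_eq_zero_iff _ hinj).1 h2)

end dvr

theorem psi1 : S_GNN → S_PSI1 := by
  intro hG k O k1 L1 ι _ _ _ _ _ _ _ _ _ _ _ _ _ _ _ _ t X w D Cc ht hres hM hD hgr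
  classical
  have hinj : Function.Injective (algebraMap O L1) := inj_O O k1 L1
  set y : ι → L1 := fun i => t ^ w i • X i with hydef
  have hy : HRO k1 y := HRO_y hM
  set I : Ideal (MvPolynomial ι k) := Irel k t y with hI
  have hmemI : ∀ G : MvPolynomial ι k,
      G ∈ I ↔ ∃ H : MvPolynomial ι O, aeval y G = t • aeval y H := fun G => Iff.rfl
  have hone : (1 : MvPolynomial ι k) ∉ I := by
    intro h1
    obtain ⟨H, hH⟩ := (hmemI 1).1 h1
    have h2 := hc_rel hy hH 0
    rw [homogeneousComponent_zero, homogeneousComponent_zero, aeval_C, aeval_C,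
      Algebra.smul_def, ← map_mul, coeff_zero_one, map_one, ← map_one (algebraMap O L1)] at h2
    exact ht.not_isUnit (IsUnit.of_mul_eq_one _ (hinj h2).symm)
  have hIne : I ≠ ⊤ := fun h => hone (h ▸ Submodule.mem_top)
  have : Nontrivial (MvPolynomial ι k ⧸ I) := Ideal.Quotient.nontrivial_iff.2 hIne
  set z : ι → MvPolynomial ι k ⧸ I := fun i => Ideal.Quotient.mk I (MvPolynomial.X i) with hz
  have hzG : ∀ G : MvPolynomial ι k, aeval z G = Ideal.Quotient.mk I G := by
    intro G
    have h1 : (aeval z : MvPolynomial ι k →ₐ[k] _) = Ideal.Quotient.mkₐ k I := by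
      refine MvPolynomial.algHom_ext (fun i => ?_)
      simp [hz]
    rw [h1]
    rfl
  have hz0 : ∀ G : MvPolynomial ι k,
      aeval z G = 0 ↔ ∃ H : MvPolynomial ι O, aeval y G = t • aeval y H := by
    intro G
    rw [hzG, Ideal.Quotient.eq_zero_iff_mem, hmemI]
  have hzH : ∀ G : MvPolynomial ι k, aeval z G = 0 →
      ∀ d : ℕ, aeval z (homogeneousComponent d G) = 0 := by
    intro G h d
    obtain ⟨H, hH⟩ := (hz0 G).1 h
    exact (hz0 _).2 ⟨_, hc_rel hy hH d⟩
  have hyV : VV k1 y ≤ VV k1 X := by
    refine Submodule.span_le.2 ?_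
    rintro _ ⟨i, rfl⟩
    have h1 : y i = algebraMap O k1 (t ^ w i) • X i := by
      rw [hydef]
      simp only
      rw [algebraMap_smul]
    rw [SetLike.mem_coe, h1]
    exact Submodule.smul_mem _ _ (Submodule.subset_span (Set.mem_range_self i))
  have hyO : ∀ (e : ℕ) (G : MvPolynomial ι O), G.IsHomogeneous e →
      aeval y G ∈ (VV k1 X) ^ e := by
    intro e G hGe
    refine pow_le_pow_left' hyV e ?_
    rw [← aeval_map_alg (A := k1)]
    exact aeval_mem_pow (hGe.map _)
  have hgz : ∀ e : ℕ, Module.finrank k ↥((VV k z) ^ e) ≤ Cc * (e + 1) ^ (D - 1) := by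
    intro e
    refine le_trans ?_ (hgr e)
    by_contra hcon
    push Not at hcon
    let b := Module.finBasis k ↥((VV k z) ^ e)
    have hb : ∀ j, ∃ G : MvPolynomial ι k, G.IsHomogeneous e ∧
        ((b j : ↥((VV k z) ^ e)) : MvPolynomial ι k ⧸ I) = aeval z G := fun j =>
      (mem_span_pow_iff z e _).1 (b j).2
    choose G hGh hGb using hb
    have hmem : ∀ j, aeval y (G j) ∈ (VV k1 X) ^ e := by
      intro j
      rw [← aeval_map_alg (A := O)]
      exact hyO e _ ((hGh j).map _)
    have hdep : ¬ LinearIndependent k1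
        (fun j => (⟨aeval y (G j), hmem j⟩ : ↥((VV k1 X) ^ e))) := by
      intro hli
      have h1 := hli.fintype_card_le_finrank
      rw [Fintype.card_fin] at h1
      exact absurd h1 (not_le.2 hcon)
    rw [Fintype.not_linearIndependent_iff] at hdep
    obtain ⟨g, hg1, j0, hj0⟩ := hdep
    obtain ⟨q, hq⟩ := IsLocalization.exist_integer_multiples_of_finite (nonZeroDivisors O) g
    choose o ho using hq
    have hsum : ∑ j, o j • aeval y (G j) = 0 := by
      have h1 : ∑ j, g j • aeval y (G j) = 0 := by
        have := congrArg (Submodule.subtype _) hg1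
        simpa using this
      have h2 : algebraMap O L1 (q : O) * ∑ j, g j • aeval y (G j) =
          ∑ j, o j • aeval y (G j) := by
        rw [Finset.mul_sum]
        refine Finset.sum_congr rfl (fun j _ => ?_)
        have h3 : algebraMap O L1 (o j) = algebraMap O L1 (q : O) * algebraMap k1 L1 (g j) := by
          rw [IsScalarTower.algebraMap_apply O k1 L1, ho j, Algebra.smul_def, map_mul,
            ← IsScalarTower.algebraMap_apply O k1 L1]
        rw [Algebra.smul_def, Algebra.smul_def, h3]
        ring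
      rw [← h2, h1, mul_zero]
    have hoj0 : o j0 ≠ 0 := by
      intro h
      have h1 := ho j0
      rw [h, map_zero, Algebra.smul_def] at h1
      rcases mul_eq_zero.1 h1.symm with h2 | h2
      · exact nonZeroDivisors.ne_zero q.2 ((map_eq_zero_iff _ (IsFractionRing.injective O k1)).1 h2)
      · exact hj0 h2
    obtain ⟨n, hn⟩ := FiniteMultiplicity.of_not_isUnit ht.not_isUnit hoj0
    obtain ⟨o', ⟨j1, hj1⟩, ho's⟩ := exists_prim ht hinj j0 (n + 1) o hn hsum
    choose c hc using fun j => hres (o' j)
    choose p hp using hc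
    have hcj1 : c j1 ≠ 0 := by
      intro h
      apply hj1
      refine ⟨p j1, ?_⟩
      have := hp j1
      rw [h, map_zero, sub_zero] at this
      exact this
    have hrel : aeval z (∑ j, C (c j) * G j) = 0 := by
      rw [hz0]
      refine ⟨-∑ j, C (p j) * map (algebraMap k O) (G j), ?_⟩
      rw [map_neg, map_sum, map_sum, smul_neg, Finset.smul_sum, ← add_eq_zero_iff_eq_neg,
        ← Finset.sum_add_distrib, ← ho's]
      refine Finset.sum_congr rfl (fun j _ => ?_)
      have h1 : algebraMap k L1 (c j) = algebraMap O L1 (algebraMap k O (c j)) :=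
        IsScalarTower.algebraMap_apply k O L1 (c j)
      have h2 : o' j = algebraMap k O (c j) + t * p j := by
        rw [← hp j]; ring
      rw [map_mul, aeval_C, map_mul, aeval_C, aeval_map_alg, Algebra.smul_def, Algebra.smul_def,
        h1, h2, map_add, map_mul]
      ring
    have hlin := Fintype.linearIndependent_iff.1 b.linearIndependent c ?_ j1
    · exact hcj1 hlin
    · refine Subtype.ext ?_
      rw [Submodule.coe_sum, Submodule.coe_zero, ← hrel, map_sum]
      refine Finset.sum_congr rfl (fun j _ => ?_)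
      rw [Submodule.coe_smul, hGb j, map_mul, aeval_C, Algebra.smul_def]
  obtain ⟨Φ, hΦ0, hΦ⟩ := hG k (MvPolynomial ι k ⧸ I) ι z D Cc hD hzH hgz
  refine ⟨Φ, hΦ0, fun v hv => ?_⟩
  obtain ⟨N, hN⟩ := hΦ v hv
  set W : Submodule O L1 := Submodule.span O (Set.range y) with hW
  set ψ : Fin D → L1 := fun l => ∑ i, v (l, i) • y i with hψ
  have hlin : ∀ l, (∑ i, C (v (l, i)) * MvPolynomial.X i : MvPolynomial ι k).IsHomogeneous 1 := by
    intro l
    refine IsHomogeneous.sum _ _ _ (fun i _ => ?_)
    have := (isHomogeneous_C ι (v (l, i))).mul (isHomogeneous_X k i)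
    rwa [zero_add] at this
  have hψy : ∀ l, aeval y (∑ i, C (v (l, i)) * MvPolynomial.X i : MvPolynomial ι k) = ψ l := by
    intro l
    rw [map_sum]
    exact Finset.sum_congr rfl (fun i _ => by rw [map_mul, aeval_C, aeval_X, Algebra.smul_def])
  have hψz : ∀ l, aeval z (∑ i, C (v (l, i)) * MvPolynomial.X i : MvPolynomial ι k) =
      ∑ i, v (l, i) • z i := by
    intro l
    rw [map_sum]
    refine Finset.sum_congr rfl (fun i _ => ?_)
    rw [map_mul, aeval_C, aeval_X]
    exact (Algebra.smul_def _ _).symm
  have hkey : W ^ (N + 1) ≤ Submodule.span O (Set.range ψ) * W ^ N := by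
    refine Submodule.le_of_le_smul_of_le_jacobson_bot (I := Ideal.span {t})
      (Submodule.FG.pow (Submodule.fg_span (Set.finite_range y)) _) ?_ ?_
    · rw [IsLocalRing.jacobson_eq_maximalIdeal _ bot_ne_top, Ideal.span_singleton_le_iff_mem]
      exact (IsLocalRing.mem_maximalIdeal _).2 ht.not_isUnit
    · intro a ha
      obtain ⟨G0, hG0, rfl⟩ := (mem_span_pow_iff y (N + 1) a).1 ha
      rw [aeval_def, eval₂_eq']
      refine Submodule.sum_mem _ (fun m hm => ?_)
      rw [← Algebra.smul_def]
      refine Submodule.smul_mem _ _ ?_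
      have hmd : m.degree = N + 1 := by
        rw [Finsupp.degree_eq_sum, hG0.degree_eq_sum_deg_support hm]
        exact (Finset.sum_subset (Finset.subset_univ _) (fun i _ hi => by simpa using hi)).symm
      have hmh : (monomial m (1 : k)).IsHomogeneous (N + 1) := isHomogeneous_monomial _ hmd
      have hmy : aeval y (monomial m (1 : k)) = ∏ i, y i ^ m i := by
        rw [aeval_monomial, map_one, one_mul, Finsupp.prod_fintype _ _ (fun i => pow_zero _)]
      rw [← hmy]
      obtain ⟨r, hr, hra⟩ := hN (aeval z (monomial m (1 : k))) (aeval_mem_pow hmh)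
      choose G hGh hGr using fun l => (mem_span_pow_iff z N (r l)).1 (hr l)
      have hrel : aeval z (monomial m (1 : k) -
          ∑ l, (∑ i, C (v (l, i)) * MvPolynomial.X i) * G l) = 0 := by
        rw [map_sub, map_sum, hra, sub_eq_zero]
        refine Finset.sum_congr rfl (fun l _ => ?_)
        rw [map_mul, hψz, hGr l]
      obtain ⟨H, hH⟩ := (hz0 _).1 hrel
      have hhom : (monomial m (1 : k) -
          ∑ l, (∑ i, C (v (l, i)) * MvPolynomial.X i) * G l).IsHomogeneous (N + 1) := by
        refine hmh.sub (IsHomogeneous.sum _ _ _ (fun l _ => ?_))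
        have := (hlin l).mul (hGh l)
        rwa [add_comm 1 N] at this
      have h3 := hc_rel hy hH (N + 1)
      rw [homogeneousComponent_eq_self hhom] at h3
      have h4 : aeval y (monomial m (1 : k)) =
          ∑ l, ψ l * aeval y (G l) + t • aeval y (homogeneousComponent (N + 1) H) := by
        rw [← h3, map_sub, map_sum]
        have h5 : ∑ l, aeval y ((∑ i, C (v (l, i)) * MvPolynomial.X i) * G l) =
            ∑ l, ψ l * aeval y (G l) :=
          Finset.sum_congr rfl (fun l _ => by rw [map_mul, hψy])
        rw [h5]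
        ring
      rw [h4]
      refine Submodule.add_mem_sup (Submodule.sum_mem _ (fun l _ => ?_)) ?_
      · refine Submodule.mul_mem_mul (Submodule.subset_span (Set.mem_range_self l)) ?_
        rw [← aeval_map_alg (A := O)]
        exact (mem_span_pow_iff y N _).2 ⟨_, (hGh l).map _, rfl⟩
      · exact Submodule.smul_mem_smul (Ideal.mem_span_singleton_self t)
          ((mem_span_pow_iff y (N + 1) _).2 ⟨_, homogeneousComponent_isHomogeneous _ _, rfl⟩)
  refine ⟨N, fun a ha => ?_⟩
  obtain ⟨r, hr, hra⟩ := mem_span_mul (hkey ha)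
  exact ⟨r, hr, hra⟩

end Pool.Agent.Y978.GS
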