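import Pool.Agent.Y978.GS.Base

/-!
# Project GS: vanishing from twisted exactness, reflection of coboundaries
-/

set_option autoImplicit false
set_option linter.unusedSectionVars false

namespace Pool.Agent.Y978.GS

open Pool.Agent.Y234.GS

section symb

variable {ι : Type} [Fintype ι] [LinearOrder ι] {K L : Type} [Field K] [Field L] [Algebra K L]
  {x : ι → L} {w : ι → ℕ} {Δ : Finset (Finset ι)}

/-- The support of an exponent. -/
def sp (b : ι → ℤ) : Finset ι := Finset.univ.filter (fun i => b i ≠ 0)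

/-- Linear combinations of Laurent monomials. -/
noncomputable def lc (K : Type) {L : Type} [Field K] [Field L] [Algebra K L] (x : ι → L) :
    ((ι → ℤ) →₀ K) →ₗ[K] L :=
  Finsupp.linearCombination K (monz x)

theorem lc_apply (μ : (ι → ℤ) →₀ K) : lc K x μ = μ.sum (fun b r => r • monz x b) :=
  Finsupp.linearCombination_apply K μ

theorem monz_low (hS : S_SYM) (hx : ∀ i, x i ≠ 0) (hG : Grob K x w Δ) {T : Finset ι}
    {b : ι → ℤ} (hb : ∀ i, b i < 0 → i ∈ T) (hT : T ∪ sp b ∉ Δ) :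
    monz x b ∈ WM K x w (degz b) (wtz w b - 1) T :=
  mem_WM_of ((hS K L ι x w Δ hx hG).2.2.2.1 T b hb hT)

theorem monz_mem (hS : S_SYM) (hx : ∀ i, x i ≠ 0) (hG : Grob K x w Δ) {T : Finset ι}
    {b : ι → ℤ} (hb : ∀ i, b i < 0 → i ∈ T) :
    monz x b ∈ WM K x w (degz b) (wtz w b) T :=
  mem_WM_of ((hS K L ι x w Δ hx hG).2.2.1 T b hb)

theorem lc_low (hS : S_SYM) (hx : ∀ i, x i ≠ 0) (hG : Grob K x w Δ) {m s : ℤ} {T : Finset ι}
    {μ : (ι → ℤ) →₀ K}
    (hμ : ∀ b, μ b ≠ 0 → degz b = m ∧ wtz w b = s ∧ (∀ i, b i < 0 → i ∈ T) ∧ T ∪ sp b ∉ Δ) :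
    lc K x μ ∈ WM K x w m (s - 1) T := by
  rw [lc_apply]
  refine Submodule.sum_mem _ (fun b hb => ?_)
  obtain ⟨h1, h2, h3, h4⟩ := hμ b (Finsupp.mem_support_iff.1 hb)
  refine Submodule.smul_mem _ _ ?_
  have h5 := monz_low hS hx hG h3 h4
  rwa [h1, h2] at h5

theorem uniq (hS : S_SYM) (hx : ∀ i, x i ≠ 0) (hG : Grob K x w Δ) {m s : ℤ} {T : Finset ι}
    (hT : T.Nonempty) {μ : (ι → ℤ) →₀ K}
    (hμ : ∀ b, μ b ≠ 0 → degz b = m ∧ wtz w b = s ∧ (∀ i, b i < 0 → i ∈ T))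
    (hl : lc K x μ ∈ WM K x w m (s - 1) T) {b : ι → ℤ} (hb : T ∪ sp b ∈ Δ) : μ b = 0 := by
  classical
  set μ1 := μ.filter (fun b => T ∪ sp b ∈ Δ) with hμ1
  set μ2 := μ.filter (fun b => ¬ (T ∪ sp b ∈ Δ)) with hμ2
  have hadd : μ1 + μ2 = μ := Finsupp.filter_add_filter_not μ _
  have h2 : lc K x μ2 ∈ WM K x w m (s - 1) T := by
    refine lc_low hS hx hG (fun b hb => ?_)
    by_cases hbΔ : T ∪ sp b ∈ Δ
    · rw [hμ2, Finsupp.filter_apply_neg (fun b => ¬ (T ∪ sp b ∈ Δ)) μ (by simpa using hbΔ)] at hb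
      exact absurd rfl hb
    · rw [hμ2, Finsupp.filter_apply_pos (fun b => ¬ (T ∪ sp b ∈ Δ)) μ hbΔ] at hb
      obtain ⟨h3, h4, h5⟩ := hμ b hb
      exact ⟨h3, h4, h5, hbΔ⟩
  have h1 : lc K x μ1 ∈ WM K x w m (s - 1) T := by
    have h3 : lc K x μ1 = lc K x μ - lc K x μ2 := by
      rw [← hadd, map_add, add_sub_cancel_right]
    rw [h3]
    exact Submodule.sub_mem _ hl h2
  have h3 : μ1 = 0 := by
    refine (hS K L ι x w Δ hx hG).2.1 m s T μ1 (fun b hb => ?_) ?_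
    · have hb' := Finsupp.mem_support_iff.1 hb
      by_cases hbΔ : T ∪ sp b ∈ Δ
      · rw [hμ1, Finsupp.filter_apply_pos (fun b => T ∪ sp b ∈ Δ) μ hbΔ] at hb'
        obtain ⟨h3, h4, h5⟩ := hμ b hb'
        exact ⟨h3, h4, h5, hbΔ⟩
      · rw [hμ1, Finsupp.filter_apply_neg (fun b => T ∪ sp b ∈ Δ) μ hbΔ] at hb'
        exact absurd rfl hb'
    · rw [← lc_apply]
      exact (mem_WM hT).1 h1
  have h4 := DFunLike.congr_fun h3 b
  rw [hμ1, Finsupp.filter_apply_pos (fun b => T ∪ sp b ∈ Δ) μ hb] at h4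
  simpa using h4

/-- The symbol of a cochain. -/
structure IsSymb (K : Type) {L : Type} [Field K] [Field L] [Algebra K L] (x : ι → L) (w : ι → ℕ)
    (Δ : Finset (Finset ι)) (m s : ℤ) (j : ℕ) (c : Finset ι → L)
    (κ : Finset ι → (ι → ℤ) →₀ K) : Prop where
  card : ∀ S b, κ S b ≠ 0 → S.card = j
  deg : ∀ S b, κ S b ≠ 0 → degz b = m
  wt : ∀ S b, κ S b ≠ 0 → wtz w b = s
  neg : ∀ S b, κ S b ≠ 0 → ∀ i, b i < 0 → i ∈ S
  mem : ∀ S b, κ S b ≠ 0 → S ∪ sp b ∈ Δ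
  sub : ∀ S : Finset ι, S.card = j → c S - lc K x (κ S) ∈ WM K x w m (s - 1) S

theorem exists_symb (hS : S_SYM) (hx : ∀ i, x i ≠ 0) (hG : Grob K x w Δ) {m s : ℤ} {j : ℕ}
    {c : Finset ι → L} (hc : WCoch K x w m s j c) : ∃ κ, IsSymb K x w Δ m s j c κ := by
  classical
  have h : ∀ S : Finset ι, ∃ κ : (ι → ℤ) →₀ K, (∀ b, κ b ≠ 0 → S.card = j) ∧
      (∀ b, κ b ≠ 0 → degz b = m) ∧ (∀ b, κ b ≠ 0 → wtz w b = s) ∧
      (∀ b, κ b ≠ 0 → ∀ i, b i < 0 → i ∈ S) ∧ (∀ b, κ b ≠ 0 → S ∪ sp b ∈ Δ) ∧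
      (S.card = j → c S - lc K x κ ∈ WM K x w m (s - 1) S) := by
    intro S
    by_cases hj : S.card = j
    · obtain ⟨κ, h1, h2⟩ := (hS K L ι x w Δ hx hG).1 m s S (c S) (hc S hj)
      refine ⟨κ, fun b _ => hj, fun b hb => (h1 b (Finsupp.mem_support_iff.2 hb)).1,
        fun b hb => (h1 b (Finsupp.mem_support_iff.2 hb)).2.1,
        fun b hb => (h1 b (Finsupp.mem_support_iff.2 hb)).2.2.1,
        fun b hb => (h1 b (Finsupp.mem_support_iff.2 hb)).2.2.2, fun _ => ?_⟩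
      rw [lc_apply]
      exact mem_WM_of h2
    · refine ⟨0, ?_, ?_, ?_, ?_, ?_, fun h => absurd h hj⟩ <;> intro b hb <;>
        exact absurd rfl hb
  choose κ h1 h2 h3 h4 h5 h6 using h
  exact ⟨κ, ⟨h1, h2, h3, h4, h5, h6⟩⟩

theorem dd_apply (κ : Finset ι → (ι → ℤ) →₀ K) (b : ι → ℤ) (T : Finset ι) :
    dd κ T b = dd (fun S => κ S b) T :=
  (dd_map (Finsupp.applyAddHom b) κ T).symm

theorem dd_lc (κ : Finset ι → (ι → ℤ) →₀ K) (T : Finset ι) :
    dd (fun S => lc K x (κ S)) T = lc K x (dd κ T) :=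
  dd_map (lc K x).toAddMonoidHom κ T

theorem exists_of_dd_ne {γ : Finset ι → K} {T : Finset ι} (h : dd γ T ≠ 0) :
    ∃ i ∈ T, γ (T.erase i) ≠ 0 := by
  by_contra hcon
  push Not at hcon
  apply h
  unfold dd
  exact Finset.sum_eq_zero (fun i hi => by rw [hcon i hi, smul_zero])

/-- If the coboundary of a cochain has at `T` the leading part `ν`, the symbols agree. -/
theorem symb_dd (hS : S_SYM) (hx : ∀ i, x i ≠ 0) (hG : Grob K x w Δ) {m s : ℤ} {j : ℕ}
    {c : Finset ι → L} {κ : Finset ι → (ι → ℤ) →₀ K} (hκ : IsSymb K x w Δ m s j c κ)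
    {T : Finset ι} (hT : T.card = j + 1) {ν : (ι → ℤ) →₀ K}
    (hν : ∀ b, ν b ≠ 0 → degz b = m ∧ wtz w b = s ∧ (∀ i, b i < 0 → i ∈ T))
    (h : dd c T - lc K x ν ∈ WM K x w m (s - 1) T) {b : ι → ℤ} (hb : T ∪ sp b ∈ Δ) :
    dd (fun S => κ S b) T = ν b := by
  have hne : T.Nonempty := Finset.card_pos.1 (by omega)
  have h1 : dd c T - lc K x (dd κ T) ∈ WM K x w m (s - 1) T := by
    rw [← dd_lc, ← dd_sub]
    exact dd_mem_WM (j := j) hκ.sub hT
  have h2 : lc K x (dd κ T - ν) ∈ WM K x w m (s - 1) T := by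
    have h3 : lc K x (dd κ T - ν) = (dd c T - lc K x ν) - (dd c T - lc K x (dd κ T)) := by
      rw [map_sub]; ring
    rw [h3]
    exact Submodule.sub_mem _ h h1
  have h3 := uniq hS hx hG hne (μ := dd κ T - ν) (fun b' hb' => ?_) h2 hb
  · rw [← dd_apply]
    rw [Finsupp.sub_apply] at h3
    exact sub_eq_zero.1 h3
  · by_cases hn : ν b' = 0
    · rw [Finsupp.sub_apply, hn, sub_zero, dd_apply] at hb'
      obtain ⟨i, hi, hne'⟩ := exists_of_dd_ne hb'
      exact ⟨hκ.deg _ _ hne', hκ.wt _ _ hne', fun l hl =>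
        Finset.mem_of_mem_erase (hκ.neg _ _ hne' l hl)⟩
    · exact hν b' hn

/-- The corrections. -/
theorem corr (hS : S_SYM) (hx : ∀ i, x i ≠ 0) (hG : Grob K x w Δ) {b : ι → ℤ}
    {lam : Finset ι → K} (hl : ∀ S, lam S ≠ 0 → ∀ i, b i < 0 → i ∈ S) {T : Finset ι} {t : K}
    (ht : t ≠ 0 → T ∪ sp b ∈ Δ) (h : T ∪ sp b ∈ Δ → dd lam T = t) :
    dd lam T • monz x b - t • monz x b ∈ WM K x w (degz b) (wtz w b - 1) T := by
  by_cases hT : T ∪ sp b ∈ Δ
  · rw [h hT, sub_self]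
    exact Submodule.zero_mem _
  · have h1 : t = 0 := by
      by_contra h1
      exact hT (ht h1)
    rw [h1, zero_smul, sub_zero]
    by_cases h2 : dd lam T = 0
    · rw [h2, zero_smul]
      exact Submodule.zero_mem _
    · obtain ⟨i, hi, hne⟩ := exists_of_dd_ne h2
      refine Submodule.smul_mem _ _ (monz_low hS hx hG (fun l hlt => ?_) hT)
      exact Finset.mem_of_mem_erase (hl _ hne l hlt)

/-- The homotopy for an exponent with a positive entry. -/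
theorem caseA {b : ι → ℤ} {j : ℕ} {κ : Finset ι → K} (hcard : ∀ S, κ S ≠ 0 → S.card = j)
    (hneg : ∀ S, κ S ≠ 0 → ∀ i, b i < 0 → i ∈ S)
    (hcl : ∀ T : Finset ι, T.card = j + 1 → T ∪ sp b ∈ Δ → dd κ T = 0) {p : ι} (hp : 0 < b p) :
    (∀ S, homo p κ S ≠ 0 → S.card + 1 = j ∧ ∀ i, b i < 0 → i ∈ S) ∧
    ∀ T : Finset ι, T.card = j → T ∪ sp b ∈ Δ → dd (homo p κ) T = κ T := by
  constructor
  · intro S hS
    unfold homo at hS
    by_cases hpS : p ∈ S
    · rw [if_pos hpS] at hS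
      exact absurd rfl hS
    · rw [if_neg hpS] at hS
      have h1 : κ (insert p S) ≠ 0 := fun h => hS (by rw [h, smul_zero])
      refine ⟨?_, fun i hi => ?_⟩
      · rw [← hcard _ h1, Finset.card_insert_of_notMem hpS]
      · have h2 := hneg _ h1 i hi
        rcases Finset.mem_insert.1 h2 with rfl | h3
        · omega
        · exact h3
  · intro T hT hTΔ
    by_cases hpT : p ∈ T
    · exact dd_homo_mem p κ hpT
    · refine dd_homo_notMem p κ hpT (hcl _ ?_ ?_)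
      · rw [Finset.card_insert_of_notMem hpT, hT]
      · have h1 : p ∈ sp b := by simp [sp, hp.ne']
        rw [Finset.insert_union, Finset.insert_eq_self.2 (Finset.mem_union_right _ h1)]
        exact hTΔ

/-- The union of the supports. -/
noncomputable def allsp (κ : Finset ι → (ι → ℤ) →₀ K) : Finset (ι → ℤ) := by
  classical
  exact Finset.univ.biUnion (fun S => (κ S).support)

theorem lc_eq_sum (κ : Finset ι → (ι → ℤ) →₀ K) (S : Finset ι) :
    lc K x (κ S) = ∑ b ∈ allsp κ, κ S b • monz x b := by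
  classical
  rw [lc_apply]
  unfold allsp
  refine Finsupp.sum_of_support_subset _ ?_ _ (fun b _ => zero_smul _ _)
  exact Finset.subset_biUnion_of_mem (fun S => (κ S).support) (Finset.mem_univ S)

theorem mem_allsp {κ : Finset ι → (ι → ℤ) →₀ K} {b : ι → ℤ} (hb : b ∈ allsp κ) :
    ∃ S, κ S b ≠ 0 := by
  classical
  unfold allsp at hb
  simpa using hb

theorem sp_neg {b : ι → ℤ} (hb : ∀ i, b i ≤ 0) : supp (fun i => (-b i).toNat) = sp b := by
  unfold supp sp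
  ext i
  have := hb i
  simp only [Finset.mem_filter, Finset.mem_univ, true_and]
  omega

theorem deg_neg {b : ι → ℤ} (hb : ∀ i, b i ≤ 0) :
    ((deg (fun i => (-b i).toNat) : ℕ) : ℤ) = - degz b := by
  unfold deg degz
  push_cast
  rw [← Finset.sum_neg_distrib]
  refine Finset.sum_congr rfl (fun i _ => ?_)
  have := hb i
  omega

theorem wt_neg {b : ι → ℤ} (hb : ∀ i, b i ≤ 0) :
    ((wt w (fun i => (-b i).toNat) : ℕ) : ℤ) = - wtz w b := by
  unfold wt wtz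
  push_cast
  rw [← Finset.sum_neg_distrib]
  refine Finset.sum_congr rfl (fun i _ => ?_)
  have := hb i
  rw [Int.toNat_of_nonneg (by omega)]
  ring

theorem neg_toNat {b : ι → ℤ} (hb : ∀ i, b i ≤ 0) :
    (fun i => -((((-b i).toNat : ℕ)) : ℤ)) = b := by
  funext i
  have := hb i
  omega

theorem sp_sub {b : ι → ℤ} (hb : ∀ i, b i ≤ 0) {S : Finset ι} (h : ∀ i, b i < 0 → i ∈ S) :
    sp b ⊆ S := by
  intro i hi
  have h1 := hb i
  simp only [sp, Finset.mem_filter, Finset.mem_univ, true_and] at hi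
  exact h i (by omega)

/-- The case of a nonpositive exponent, with an exact twisted complex. -/
theorem caseB (hG : Grob K x w Δ) {b : ι → ℤ} (hb : ∀ i, b i ≤ 0) {j : ℕ} {κ : Finset ι → K}
    (hneg : ∀ S, κ S ≠ 0 → ∀ i, b i < 0 → i ∈ S) (hmem : ∀ S, κ S ≠ 0 → S ∪ sp b ∈ Δ)
    (hcl : ∀ T : Finset ι, T.card = j + 1 → T ∪ sp b ∈ Δ → dd κ T = 0)
    (hex : TwExact K Δ (supp (fun i => (-b i).toNat)) j) :
    ∃ lam : Finset ι → K, (∀ S, lam S ≠ 0 → ∀ i, b i < 0 → i ∈ S) ∧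
    ∀ T : Finset ι, T.card = j → T ∪ sp b ∈ Δ → dd lam T = κ T := by
  rw [sp_neg hb] at hex
  have hA : ∀ S, κ S ≠ 0 → sp b ⊆ S ∧ S ∈ Δ := by
    intro S hS
    have h3 := sp_sub hb (hneg S hS)
    have h4 := hmem S hS
    rw [Finset.union_eq_left.2 h3] at h4
    exact ⟨h3, h4⟩
  have hB : ∀ T ∈ Δ, T.card = j + 1 → dd κ T = 0 := by
    intro T hT hTc
    by_cases hF : sp b ⊆ T
    · exact hcl T hTc (by rwa [Finset.union_eq_left.2 hF])
    · by_contra h5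
      obtain ⟨i, hi, hne⟩ := exists_of_dd_ne h5
      exact hF ((sp_sub hb (hneg _ hne)).trans (Finset.erase_subset _ _))
  obtain ⟨lam, h1, h2⟩ := hex κ hA hB
  have h3 : ∀ S, lam S ≠ 0 → ∀ i, b i < 0 → i ∈ S := fun S hS i hi =>
    (h1 S hS).1 (by simp [sp, hi.ne])
  refine ⟨lam, h3, fun T hT hTΔ => ?_⟩
  by_cases hF : sp b ⊆ T
  · exact (h2 T (hG.down _ hTΔ T Finset.subset_union_left) hF hT).symm
  · have h4 : κ T = 0 := by
      by_contra h4
      exact hF (sp_sub hb (hneg T h4))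
    rw [h4]
    by_contra h5
    obtain ⟨i, hi, hne⟩ := exists_of_dd_ne h5
    exact hF ((h1 _ hne).1.trans (Finset.erase_subset _ _))

theorem gro3_step (hS : S_SYM) (hx : ∀ i, x i ≠ 0) (hG : Grob K x w Δ) {m s : ℤ} {j : ℕ}
    (hj : 2 ≤ j) (hex : ∀ a : ι → ℕ, (deg a : ℤ) = -m → TwExact K Δ (supp a) j)
    {c : Finset ι → L} (hc : WCocyc K x w m s j c) :
    ∃ b : Finset ι → L, WCoch K x w m s (j - 1) b ∧
      WCocyc K x w m (s - 1) j (fun S => c S - dd b S) := by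
  classical
  obtain ⟨κ, hκ⟩ := exists_symb hS hx hG hc.1
  have hcl : ∀ b : ι → ℤ, ∀ T : Finset ι, T.card = j + 1 → T ∪ sp b ∈ Δ →
      dd (fun S => κ S b) T = 0 := by
    intro b T hT hTΔ
    have h := symb_dd hS hx hG hκ hT (ν := 0) (fun b' hb' => absurd rfl hb') ?_ hTΔ
    · simpa using h
    · rw [hc.2 T hT, map_zero, sub_zero]
      exact Submodule.zero_mem _
  have hlam : ∀ b : ι → ℤ, ∃ lam : Finset ι → K, b ∈ allsp κ →
      ((∀ S, lam S ≠ 0 → ∀ i, b i < 0 → i ∈ S) ∧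
      ∀ T : Finset ι, T.card = j → T ∪ sp b ∈ Δ → dd lam T = κ T b) := by
    intro b
    by_cases hb : b ∈ allsp κ
    · obtain ⟨S0, hS0⟩ := mem_allsp hb
      by_cases hpos : ∃ p, 0 < b p
      · obtain ⟨p, hp⟩ := hpos
        obtain ⟨h1, h2⟩ := caseA (Δ := Δ) (b := b) (j := j) (κ := fun S => κ S b)
          (fun S hS' => hκ.card S b hS') (fun S hS' => hκ.neg S b hS') (hcl b) hp
        exact ⟨homo p (fun S => κ S b), fun _ => ⟨fun S hS' => (h1 S hS').2, h2⟩⟩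
      · push Not at hpos
        obtain ⟨lam, h1, h2⟩ := caseB hG hpos (j := j) (κ := fun S => κ S b)
          (fun S hS' => hκ.neg S b hS') (fun S hS' => hκ.mem S b hS') (hcl b)
          (hex _ (by rw [deg_neg hpos, hκ.deg S0 b hS0]))
        exact ⟨lam, fun _ => ⟨h1, h2⟩⟩
    · exact ⟨0, fun h => absurd h hb⟩
  choose lam hlam using hlam
  refine ⟨fun S => ∑ b ∈ allsp κ, lam b S • monz x b, fun S hSc => ?_, fun T hT => ?_, ?_⟩
  · have hne : S.Nonempty := Finset.card_pos.1 (by omega)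
    rw [← mem_WM hne]
    refine Submodule.sum_mem _ (fun b hb => ?_)
    by_cases h0 : lam b S = 0
    · rw [h0, zero_smul]
      exact Submodule.zero_mem _
    · obtain ⟨S0, hS0⟩ := mem_allsp hb
      have h1 := monz_mem hS hx hG (w := w) ((hlam b hb).1 S h0)
      rw [hκ.deg S0 b hS0, hκ.wt S0 b hS0] at h1
      exact Submodule.smul_mem _ _ h1
  · have hne : T.Nonempty := Finset.card_pos.1 (by omega)
    rw [← mem_WM hne]
    simp only [dd_sum, dd_smul]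
    have h1 : c T - ∑ b ∈ allsp κ, dd (lam b) T • monz x b =
        (c T - lc K x (κ T)) - ∑ b ∈ allsp κ, (dd (lam b) T • monz x b - κ T b • monz x b) := by
      rw [lc_eq_sum, Finset.sum_sub_distrib]
      ring
    rw [h1]
    refine Submodule.sub_mem _ (hκ.sub T hT) (Submodule.sum_mem _ (fun b hb => ?_))
    obtain ⟨S0, hS0⟩ := mem_allsp hb
    have h2 := corr hS hx hG (hlam b hb).1 (T := T) (t := κ T b) (hκ.mem T b)
      ((hlam b hb).2 T hT)
    rwa [hκ.deg S0 b hS0, hκ.wt S0 b hS0] at h2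
  · intro T hT
    rw [dd_sub, hc.2 T hT]
    rw [show dd (fun S => dd (fun S => ∑ b ∈ allsp κ, lam b S • monz x b) S) T = 0 from
      dd_dd _ _, sub_zero]

end symb

theorem gro3 : S_FIN → S_SYM → S_GRO3 := by
  intro hF hS K L ι _ _ _ _ _ x w Δ hM hG m j hj hex c hc
  obtain ⟨s0, hs0⟩ := hF K L ι x w hM m j hj
  have key : ∀ n : ℕ, ∀ s : ℤ, s < s0 + n → ∀ c : Finset ι → L, WCocyc K x w m s j c →
      ∃ s1 : ℤ, WCobd K x w m s1 j c := by
    intro n
    induction n with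
    | zero =>
      intro s hs c hc
      exact ⟨s, hs0 s (by simpa using hs) c hc⟩
    | succ n ih =>
      intro s hs c hc
      obtain ⟨b, hb1, hb2⟩ := gro3_step hS hM.ne hG hj hex hc
      obtain ⟨s1, b', hb'1, hb'2⟩ := ih (s - 1) (by push_cast at hs; linarith) _ hb2
      refine ⟨max s s1, fun S => b' S + b S, fun S hSc => ?_, fun T hT => ?_⟩
      · exact WSec_add (WSec_mono (le_max_right _ _) (hb'1 S hSc))
          (WSec_mono (le_max_left _ _) (hb1 S hSc))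
      · rw [dd_add, ← hb'2 T hT]
        ring
  obtain ⟨s1, hs1⟩ := exists_WCoch (w := w) hc.1
  obtain ⟨s2, b, hb1, hb2⟩ := key (s1 - s0 + 1).toNat s1 (by omega) c
    ⟨hs1 s1 le_rfl, hc.2⟩
  exact ⟨b, fun S hSc => WSec_sub_Sec (hb1 S hSc), hb2⟩

end Pool.Agent.Y978.GS
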