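import Pool.Agent.Y978.GS.Gro

/-!
# Project GS: reflection of coboundaries
-/

set_option autoImplicit false
set_option linter.unusedSectionVars false

namespace Pool.Agent.Y978.GS

open Pool.Agent.Y234.GS

section refl

variable {ι : Type} [Fintype ι] [LinearOrder ι] {K L : Type} [Field K] [Field L] [Algebra K L]
  {x : ι → L} {w : ι → ℕ} {Δ : Finset (Finset ι)}

/-- Outside the complex the weight can be lowered. -/
theorem WSec_lower (hS : S_SYM) (hx : ∀ i, x i ≠ 0) (hG : Grob K x w Δ) {m s : ℤ} {S : Finset ι}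
    (hSΔ : S ∉ Δ) {a : L} (ha : a ∈ WSec K x w m s S) : a ∈ WSec K x w m (s - 1) S := by
  obtain ⟨κ, h1, h2⟩ := (hS K L ι x w Δ hx hG).1 m s S a ha
  have h3 : κ = 0 := by
    by_contra h3
    obtain ⟨b, hb⟩ := Finsupp.support_nonempty_iff.2 h3
    exact hSΔ (hG.down _ (h1 b hb).2.2.2 S Finset.subset_union_left)
  rw [h3] at h2
  simpa using h2

theorem gro2_step (hS : S_SYM) (hL : S_GRO1) (hM : Model K x) (hG : Grob K x w Δ) {m s : ℤ}
    {j : ℕ} (hj : 1 ≤ j) (hm : m ≤ 0) {b : Finset ι → L} (hb : WCoch K x w m s j b)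
    (hdd : ∀ T : Finset ι, T.card = j + 1 → dd b T ∈ WM K x w m (s - 1) T) :
    ∃ b' : Finset ι → L, WCoch K x w m (s - 1) j b' ∧
      ∀ T : Finset ι, T.card = j + 1 → dd b' T = dd b T := by
  classical
  have hx := hM.ne
  obtain ⟨κ, hκ⟩ := exists_symb hS hx hG hb
  have hcl : ∀ β : ι → ℤ, ∀ T : Finset ι, T.card = j + 1 → T ∪ sp β ∈ Δ →
      dd (fun S => κ S β) T = 0 := by
    intro β T hT hTΔ
    have h := symb_dd hS hx hG hκ hT (ν := 0) (fun b' hb' => absurd rfl hb') ?_ hTΔ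
    · simpa using h
    · rw [map_zero, sub_zero]
      exact hdd T hT
  have hcor : ∀ β : ι → ℤ, ∃ d : Finset ι → L, β ∈ allsp κ →
      ((∀ T : Finset ι, T.card = j + 1 → dd d T = 0) ∧
      ∀ S : Finset ι, S.card = j → d S - κ S β • monz x β ∈ WM K x w m (s - 1) S) := by
    intro β
    by_cases hβ : β ∈ allsp κ
    · obtain ⟨S0, hS0⟩ := mem_allsp hβ
      have hdeg := hκ.deg S0 β hS0
      have hwt := hκ.wt S0 β hS0
      by_cases hpos : ∃ p, 0 < β p
      · obtain ⟨p, hp⟩ := hpos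
        obtain ⟨h1, h2⟩ := caseA (Δ := Δ) (b := β) (j := j) (κ := fun S => κ S β)
          (fun S hS' => hκ.card S β hS') (fun S hS' => hκ.neg S β hS') (hcl β) hp
        refine ⟨dd (fun S => homo p (fun S => κ S β) S • monz x β), fun _ =>
          ⟨fun T _ => dd_dd _ _, fun S hSc => ?_⟩⟩
        rw [dd_smul]
        have h3 := corr hS hx hG (b := β) (lam := homo p (fun S => κ S β))
          (fun S hS' => (h1 S hS').2) (T := S) (t := κ S β) (hκ.mem S β) (h2 S hSc)
        rwa [hdeg, hwt] at h3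
      · push Not at hpos
        have hA : ∀ S, κ S β ≠ 0 → sp β ⊆ S ∧ S ∈ Δ := by
          intro S hS
          have h3 := sp_sub hpos (hκ.neg S β hS)
          have h4 := hκ.mem S β hS
          rw [Finset.union_eq_left.2 h3] at h4
          exact ⟨h3, h4⟩
        have hB : ∀ T ∈ Δ, T.card = j + 1 → dd (fun S => κ S β) T = 0 := by
          intro T hT hTc
          by_cases hF : sp β ⊆ T
          · exact hcl β T hTc (by rwa [Finset.union_eq_left.2 hF])
          · by_contra h5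
            obtain ⟨i, hi, hne⟩ := exists_of_dd_ne h5
            exact hF ((sp_sub hpos (hκ.neg _ β hne)).trans (Finset.erase_subset _ _))
        obtain ⟨d, hd1, hd2⟩ := hL K L ι x w Δ hM hG (fun i => (-β i).toNat) j
          (fun S => κ S β) hj (by rw [sp_neg hpos]; exact hA) hB
        have e1 : -((deg (fun i => (-β i).toNat) : ℕ) : ℤ) = m := by
          rw [deg_neg hpos, neg_neg, hdeg]
        have e2 : -((wt w (fun i => (-β i).toNat) : ℕ) : ℤ) = s := by
          rw [wt_neg hpos, neg_neg, hwt]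
        rw [e1, e2] at hd1 hd2
        rw [neg_toNat hpos] at hd2
        refine ⟨d, fun _ => ⟨hd1.2, fun S hSc => ?_⟩⟩
        by_cases hSΔ : S ∈ Δ
        · exact mem_WM_of (hd2 S hSΔ hSc)
        · have h3 : κ S β = 0 := by
            by_contra h3
            exact hSΔ (hA S h3).2
          rw [h3, zero_smul, sub_zero]
          exact mem_WM_of (WSec_lower hS hx hG hSΔ (hd1.1 S hSc))
    · exact ⟨0, fun h => absurd h hβ⟩
  choose d hd using hcor
  refine ⟨fun S => b S - ∑ β ∈ allsp κ, d β S, fun S hSc => ?_, fun T hT => ?_⟩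
  · have hne : S.Nonempty := Finset.card_pos.1 (by omega)
    rw [← mem_WM hne]
    have h1 : b S - ∑ β ∈ allsp κ, d β S =
        (b S - lc K x (κ S)) - ∑ β ∈ allsp κ, (d β S - κ S β • monz x β) := by
      rw [lc_eq_sum, Finset.sum_sub_distrib]
      ring
    show b S - ∑ β ∈ allsp κ, d β S ∈ WM K x w m (s - 1) S
    rw [h1]
    exact Submodule.sub_mem _ (hκ.sub S hSc) (Submodule.sum_mem _ (fun β hβ => (hd β hβ).2 S hSc))
  · rw [dd_sub, dd_sum, Finset.sum_eq_zero (fun β hβ => (hd β hβ).1 T hT), sub_zero]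

theorem gro2_desc (hS : S_SYM) (hL : S_GRO1) (hM : Model K x) (hG : Grob K x w Δ) {m s : ℤ}
    {j : ℕ} (hj : 1 ≤ j) (hm : m ≤ 0) {c : Finset ι → L} (hc : WCoch K x w m s (j + 1) c)
    (M : ℕ) (b : Finset ι → L) (hb : WCoch K x w m (s + M) j b)
    (hdd : ∀ T : Finset ι, T.card = j + 1 → dd b T = c T) :
    ∃ b' : Finset ι → L, WCoch K x w m s j b' ∧
      ∀ T : Finset ι, T.card = j + 1 → dd b' T = c T := by
  induction M generalizing b with
  | zero => exact ⟨b, by simpa using hb, hdd⟩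
  | succ M ih =>
    obtain ⟨b', hb'1, hb'2⟩ := gro2_step hS hL hM hG hj hm hb (fun T hT => by
      rw [hdd T hT]
      refine mem_WM_of (WSec_mono ?_ (hc T hT))
      push_cast
      linarith)
    refine ih b' ?_ (fun T hT => by rw [hb'2 T hT, hdd T hT])
    have e : s + ((M + 1 : ℕ) : ℤ) - 1 = s + M := by push_cast; ring
    rwa [e] at hb'1

end refl

theorem gro2 : S_FIN → S_SYM → S_GRO1 → S_GRO2 := by
  intro _ hS hL K L ι _ _ _ _ _ x w Δ hM hG a j γ c hj hγ hc hcγ hcob
  have hx := hM.ne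
  obtain ⟨k, rfl⟩ : ∃ k, j = k + 1 := ⟨j - 1, by omega⟩
  obtain ⟨b, hb1, hb2⟩ := hcob
  rw [Nat.add_sub_cancel] at hb1
  obtain ⟨s1, hs1⟩ := exists_WCoch (w := w) hb1
  obtain ⟨b', hb'1, hb'2⟩ := gro2_desc hS hL hM hG (j := k) (by omega)
    (m := -(deg a : ℤ)) (by simp) hc.1 (s1 - (-(wt w a : ℤ))).toNat b
    (hs1 _ (by omega)) (fun T hT => (hb2 T hT).symm)
  obtain ⟨κ, hκ⟩ := exists_symb hS hx hG hb'1
  set β0 : ι → ℤ := fun i => -(a i : ℤ) with hβ0
  have hsp : sp β0 = supp a := by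
    unfold sp supp
    ext i
    simp [hβ0]
  have hdeg0 : degz β0 = -(deg a : ℤ) := by
    unfold degz deg
    push_cast
    rw [← Finset.sum_neg_distrib]
  have hwt0 : wtz w β0 = -(wt w a : ℤ) := by
    unfold wtz wt
    push_cast
    rw [← Finset.sum_neg_distrib]
    exact Finset.sum_congr rfl (fun i _ => by rw [hβ0]; ring)
  have hle0 : ∀ i, β0 i ≤ 0 := fun i => by simp [hβ0]
  refine ⟨fun S => κ S β0, fun S hS' => ?_, fun T hT hF hTc => ?_⟩
  · have h3 := sp_sub hle0 (hκ.neg S β0 hS')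
    have h4 := hκ.mem S β0 hS'
    rw [Finset.union_eq_left.2 h3] at h4
    exact ⟨by rw [← hsp]; exact h3, h4⟩
  · have hTΔ : T ∪ sp β0 ∈ Δ := by
      rw [hsp, Finset.union_eq_left.2 hF]
      exact hT
    have h := symb_dd hS hx hG hκ hTc (ν := Finsupp.single β0 (γ T)) ?_ ?_ hTΔ
    · rw [Finsupp.single_eq_same] at h
      exact h.symm
    · intro b0 hb0
      by_cases h0 : b0 = β0
      · subst h0
        refine ⟨hdeg0, hwt0, fun i hi => hF ?_⟩
        rw [← hsp]
        simp [sp, hi.ne]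
      · exact absurd (Finsupp.single_eq_of_ne h0) hb0
    · rw [hb'2 T hTc]
      have e3 : lc K x (Finsupp.single β0 (γ T)) = γ T • monz x β0 :=
        Finsupp.linearCombination_single K (γ T) β0
      rw [e3]
      exact mem_WM_of (hcγ T hT hTc)

end Pool.Agent.Y978.GS
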